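import Pool.Agent.H90.PR.Pairs

/-!
Asymptotic estimates: for `1/4 < b`, some vector is at distance at most `b ^ (m+1)` from the span of
`m` others, with probability tending to one.
-/

open MeasureTheory ProbabilityTheory Filter Topology
open scoped ENNReal NNReal RealInnerProductSpace

namespace Pool.Agent.H90.PR

lemma choose_step (m k : ℕ) (hk : 3 * m ≤ 2 * (k + 1)) (hm : m ≤ k) :
    (k + 1).choose m ≤ 3 * k.choose m := by
  have h1 := Nat.choose_mul_succ_eq k m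
  -- (k.choose m) * (k+1) = ((k+1).choose m) * (k+1-m)
  have h2 : k + 1 ≤ 3 * (k + 1 - m) := by omega
  have h3 : 0 < k + 1 - m := by omega
  have h4 : (k + 1).choose m * (k + 1 - m) ≤ (3 * k.choose m) * (k + 1 - m) := by
    rw [← h1]
    calc k.choose m * (k + 1) ≤ k.choose m * (3 * (k + 1 - m)) := Nat.mul_le_mul_left _ h2
      _ = _ := by ring
  exact Nat.le_of_mul_le_mul_right h4 h3

lemma choose_lower (m r : ℕ) (hr : 2 * r ≤ m) :
    (2 * m + 1).choose m ≤ 3 ^ r * (2 * m + 1 - r).choose m := by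
  induction r with
  | zero => simp
  | succ r ih =>
    have ih' := ih (by omega)
    have h1 := choose_step m (2 * m + 1 - (r + 1)) (by omega) (by omega)
    have h2 : 2 * m + 1 - (r + 1) + 1 = 2 * m + 1 - r := by omega
    rw [h2] at h1
    calc (2 * m + 1).choose m ≤ 3 ^ r * (2 * m + 1 - r).choose m := ih'
      _ ≤ 3 ^ r * (3 * (2 * m + 1 - (r + 1)).choose m) := Nat.mul_le_mul_left _ h1
      _ = _ := by ring

lemma four_pow_le (m r : ℕ) (hm : 0 < m) (hr : 2 * r ≤ m) :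
    (4:ℝ) ^ m ≤ 2 * m * (3 ^ r * ((2 * m + 1 - r).choose m : ℝ)) := by
  have h1 := Nat.four_pow_le_two_mul_self_mul_centralBinom m hm
  have h2 : m.centralBinom ≤ (2 * m + 1).choose m := by
    rw [Nat.centralBinom]
    exact Nat.choose_le_succ _ _
  have h3 := choose_lower m r hr
  have h4 : 4 ^ m ≤ 2 * m * (3 ^ r * (2 * m + 1 - r).choose m) :=
    h1.trans (Nat.mul_le_mul_left _ (h2.trans h3))
  exact_mod_cast h4

/-- The first `2m+1-r` indices. -/
def PP (m r : ℕ) : Finset (Fin (2 * m + 1)) := Finset.univ.filter (fun i => (i : ℕ) < 2 * m + 1 - r)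

lemma card_PP (m r : ℕ) : (PP m r).card = 2 * m + 1 - r := by
  have : PP m r = Finset.univ.filter (fun i : Fin (2 * m + 1) => (i : ℕ) < 2 * m + 1 - r) := rfl
  rw [this, Fin.card_filter_val_lt]
  omega

/-- Fixed-`m` estimate with chosen parameters. -/
lemma fail_le (m q : ℕ) (hm : 0 < m) (hq : 2 ≤ q) (b c x : ℝ) (hc : 1 < c) (hc4 : c ^ 4 ≤ 4 * b)
    (hb1 : b ≤ 1) (hx0 : 0 < x) (hx1 : x ≤ 1) (hxc : (1 + x) ^ 4 ≤ c) (hq3 : 3 ≤ c ^ q)
    (hqx : (x⁻¹) ^ 2 ≤ c ^ q) (hlarge : 8 * (m : ℝ) * 4 ≤ c ^ m) :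
    Measure.pi (fun _ : Fin (2 * m + 1) => stdGaussian (EE m))
      {g | ∀ T : Finset (Fin (2 * m + 1)), T.card = m → ∀ j ∉ T, b ^ (m + 1) < |⟪nv T g, g j⟫|} ≤
      ENNReal.ofReal (4 * 16 ^ q * (1 / 2) ^ (m / q)) +
        ENNReal.ofReal (1 - (1 / (4 * 16 ^ q) / √(4 * 16 ^ q * (m + 1))) / 32) ^ (m / q) := by
  have hbpos : 0 < b := by
    have : 0 < c ^ 4 := by positivity
    linarith
  set r := m / q with hr
  have hrq : r * q ≤ m := Nat.div_mul_le_self m q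
  have hr2 : 2 * r ≤ m := by
    calc 2 * r ≤ q * r := Nat.mul_le_mul_right _ hq
      _ = r * q := Nat.mul_comm _ _
      _ ≤ m := hrq
  set P := PP m r with hP
  have hPc : P.card = 2 * m + 1 - r := card_PP m r
  set N := (P.powersetCard m).card with hN
  have hNc : N = (2 * m + 1 - r).choose m := by rw [hN, Finset.card_powersetCard, hPc]
  set K : ℝ := √(4 * 16 ^ q * (m + 1)) with hK
  set s : ℝ := 1 / (4 * 16 ^ q) / K with hs
  have hKpos : 0 < K := Real.sqrt_pos.mpr (by positivity)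
  have hspos : 0 < s := by positivity
  have hKsq : K ^ 2 = 4 * 16 ^ q * (m + 1) := Real.sq_sqrt (by positivity)
  have h16 : (1:ℝ) ≤ 16 ^ q := one_le_pow₀ (by norm_num)
  have hη : s * K + ((m:ℝ) + 1) / K ^ 2 ≤ 1 / (2 * 16 ^ q) := by
    have e1 : s * K = 1 / (4 * 16 ^ q) := by rw [hs]; field_simp
    have e2 : ((m:ℝ) + 1) / K ^ 2 = 1 / (4 * 16 ^ q) := by rw [hKsq]; field_simp
    rw [e1, e2]
    apply le_of_eq
    field_simp
    norm_num
  have hη1 : 1 / (2 * (16:ℝ) ^ q) ≤ 1 := by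
    rw [div_le_one (by positivity)]
    linarith
  -- t
  set t : ℝ := b ^ (m + 1) with ht
  have htpos : 0 < t := by positivity
  have ht1 : t ≤ 1 := pow_le_one₀ hbpos.le hb1
  -- D
  set D : ℝ := (x⁻¹) ^ (2 * r) * (1 + x) ^ (2 * P.card) with hD
  have hDb : ∀ T ∈ P.powersetCard m,
      (((P.powersetCard m).filter (fun T' => (T' \ T).card < r)).card : ℝ) ≤ D := by
    intro T hT
    have h := card_close P m r T hT hx0 hx1
    rw [hD, inv_pow, inv_mul_eq_div, le_div_iff₀ (by positivity)]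
    exact h
  have hc0 : 0 < c := by linarith
  have hcm : ∀ k : ℕ, k ≤ m → c ^ k ≤ c ^ m := fun k hk => pow_le_pow_right₀ hc.le hk
  have hD2 : D ≤ c ^ m * (c ^ m * 4) := by
    rw [hD]
    have h1 : (x⁻¹) ^ (2 * r) ≤ c ^ m := by
      calc (x⁻¹) ^ (2 * r) = ((x⁻¹) ^ 2) ^ r := by rw [pow_mul]
        _ ≤ (c ^ q) ^ r := by gcongr
        _ = c ^ (r * q) := by rw [← pow_mul, Nat.mul_comm]
        _ ≤ c ^ m := hcm _ hrq
    have h2 : (1 + x) ^ (2 * P.card) ≤ c ^ m * 4 := by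
      calc (1 + x) ^ (2 * P.card) ≤ (1 + x) ^ (4 * m + 2) := by
            apply pow_le_pow_right₀ (by linarith)
            omega
        _ = ((1 + x) ^ 4) ^ m * (1 + x) ^ 2 := by rw [pow_add, pow_mul]
        _ ≤ c ^ m * 4 := by
            have : (1 + x) ^ 2 ≤ 4 := by nlinarith
            gcongr
    gcongr
  have hfour : (4:ℝ) ^ m ≤ 2 * m * (3 ^ r * (N : ℝ)) := by
    rw [hNc]
    exact four_pow_le m r hm hr2
  have h3r : (3:ℝ) ^ r ≤ c ^ m := by
    calc (3:ℝ) ^ r ≤ (c ^ q) ^ r := by gcongr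
      _ = c ^ (r * q) := by rw [← pow_mul, Nat.mul_comm]
      _ ≤ c ^ m := hcm _ hrq
  have hm1 : (1:ℝ) ≤ m := by exact_mod_cast hm
  have hb4 : 1 / 4 ≤ b := by
    have : 1 ≤ c ^ 4 := one_le_pow₀ hc.le
    linarith
  -- s ≤ 1
  have hK1 : 1 ≤ K := by
    rw [hK]
    apply Real.one_le_sqrt.mpr
    nlinarith
  have hs1 : s ≤ 1 := by
    rw [hs, div_div, div_le_one (by positivity)]
    nlinarith
  have hDN : D * s ≤ (N : ℝ) * t := by
    have hcm0 : 0 < c ^ m := by positivity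
    have h1 : D * s ≤ c ^ m * (c ^ m * 4) := by
      calc D * s ≤ D * 1 := by
            have : 0 ≤ D := by positivity
            gcongr
        _ = D := mul_one D
        _ ≤ _ := hD2
    refine h1.trans ?_
    -- 4^m b^m ≥ c^(4m)
    have h2 : (c ^ m) ^ 4 ≤ (4:ℝ) ^ m * b ^ m := by
      calc (c ^ m) ^ 4 = (c ^ 4) ^ m := by rw [← pow_mul, ← pow_mul, Nat.mul_comm]
        _ ≤ (4 * b) ^ m := by gcongr
        _ = _ := by rw [mul_pow]
    have h3 : (c ^ m) ^ 4 ≤ (2 * m * (c ^ m * (N : ℝ))) * b ^ m := by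
      refine h2.trans ?_
      gcongr
      refine hfour.trans ?_
      gcongr
    have h4 : (c ^ m) ^ 3 ≤ 2 * m * (N : ℝ) * b ^ m := by
      have h5 : c ^ m * (c ^ m) ^ 3 ≤ c ^ m * (2 * m * (N : ℝ) * b ^ m) := by
        calc c ^ m * (c ^ m) ^ 3 = (c ^ m) ^ 4 := by ring
          _ ≤ _ := h3
          _ = _ := by ring
      exact le_of_mul_le_mul_left h5 hcm0
    have h6 : c ^ m * (c ^ m * 4) * (8 * m) ≤ (c ^ m) ^ 3 := by
      calc c ^ m * (c ^ m * 4) * (8 * m) = (c ^ m) ^ 2 * (8 * (m : ℝ) * 4) := by ring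
        _ ≤ (c ^ m) ^ 2 * c ^ m := by gcongr
        _ = _ := by ring
    have h7 : c ^ m * (c ^ m * 4) * (8 * m) ≤ 2 * m * (N : ℝ) * b ^ m := h6.trans h4
    have h8 : c ^ m * (c ^ m * 4) * (8 * m) ≤ (N : ℝ) * t * (8 * m) := by
      refine h7.trans ?_
      rw [ht, pow_succ]
      have h9 : 0 ≤ (N:ℝ) * b ^ m * (2 * m) := by positivity
      have h10 : (N:ℝ) * b ^ m * (2 * m) * 1 ≤ (N:ℝ) * b ^ m * (2 * m) * (4 * b) := by
        apply mul_le_mul_of_nonneg_left _ h9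
        linarith
      calc 2 * (m:ℝ) * (N : ℝ) * b ^ m = (N:ℝ) * b ^ m * (2 * m) * 1 := by ring
        _ ≤ (N:ℝ) * b ^ m * (2 * m) * (4 * b) := h10
        _ = _ := by ring
    exact le_of_mul_le_mul_right h8 (by positivity)
  have hNpos : 0 < N := by
    rw [hNc]
    apply Nat.choose_pos
    omega
  have hdisj : Disjoint P Pᶜ := disjoint_compl_right
  have hmain := all_fail (m := m) P Pᶜ hdisj r s K (1 / (2 * 16 ^ q)) t D hspos hKpos hη hη1 htpos ht1
    hDb hDN hNpos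
  have hQc : (Pᶜ : Finset (Fin (2 * m + 1))).card = r := by
    rw [Finset.card_compl, hPc, Fintype.card_fin]
    omega
  rw [hQc] at hmain
  have hmono : {g : Fin (2 * m + 1) → EE m | ∀ T : Finset (Fin (2 * m + 1)), T.card = m → ∀ j ∉ T,
      b ^ (m + 1) < |⟪nv T g, g j⟫|} ⊆
      {g | ∀ T ∈ P.powersetCard m, ∀ j ∈ Pᶜ, t < |⟪nv T g, g j⟫|} := by
    intro g hg T hT j hj
    rw [Finset.mem_powersetCard] at hT
    apply hg T hT.2 j
    intro hjT
    rw [Finset.mem_compl] at hj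
    exact hj (hT.1 hjT)
  refine (measure_mono hmono).trans (hmain.trans ?_)
  refine add_le_add (ENNReal.ofReal_le_ofReal ?_) le_rfl
  -- N^2 η^r ≤ 4 16^q (1/2)^r
  have hN2 : (N : ℝ) ≤ 2 ^ (2 * m + 1) := by
    rw [hNc]
    have h1 : (2 * m + 1 - r).choose m ≤ 2 ^ (2 * m + 1 - r) := Nat.choose_le_two_pow _ _
    have h2 : 2 ^ (2 * m + 1 - r) ≤ 2 ^ (2 * m + 1) := Nat.pow_le_pow_right (by norm_num) (by omega)
    exact_mod_cast h1.trans h2
  have hmr : m ≤ q * (r + 1) := by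
    have h1 : m < q * (r + 1) := by
      rw [hr]
      exact Nat.lt_mul_div_succ m (by omega)
    exact h1.le
  calc (N : ℝ) ^ 2 * (1 / (2 * 16 ^ q)) ^ r ≤ (2 ^ (2 * m + 1)) ^ 2 * (1 / (2 * 16 ^ q)) ^ r := by
        gcongr
    _ = 4 * 16 ^ m * (1 / (2 * 16 ^ q)) ^ r := by
        congr 1
        rw [← pow_mul, show (2 * m + 1) * 2 = 4 * m + 2 by ring, pow_add, pow_mul]
        norm_num
        ring
    _ ≤ 4 * 16 ^ (q * (r + 1)) * (1 / (2 * 16 ^ q)) ^ r := by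
        gcongr
        · norm_num
    _ = 4 * 16 ^ q * (1 / 2) ^ r := by
        have e1 : (16:ℝ) ^ (q * (r + 1)) = 16 ^ q * (16 ^ q) ^ r := by
          rw [Nat.mul_add, pow_add, pow_mul, mul_one, mul_comm]
        rw [e1, one_div, mul_inv, mul_pow, one_div]
        have e2 : ((16:ℝ) ^ q) ^ r * ((16 ^ q)⁻¹) ^ r = 1 := by
          rw [← mul_pow, mul_inv_cancel₀ (by positivity), one_pow]
        calc 4 * ((16:ℝ) ^ q * (16 ^ q) ^ r) * ((2⁻¹) ^ r * ((16 ^ q)⁻¹) ^ r)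
            = 4 * 16 ^ q * (2⁻¹) ^ r * ((16 ^ q) ^ r * ((16 ^ q)⁻¹) ^ r) := by ring
          _ = _ := by rw [e2, mul_one]

lemma tendsto_div_const (q : ℕ) (hq : 0 < q) : Tendsto (fun m : ℕ => m / q) atTop atTop :=
  Nat.tendsto_div_const_atTop hq.ne'

lemma exists_params (b : ℝ) (hb : 1 / 4 < b) : ∃ (c x : ℝ) (q : ℕ), 1 < c ∧ c ^ 4 ≤ 4 * b ∧
    0 < x ∧ x ≤ 1 ∧ (1 + x) ^ 4 ≤ c ∧ 2 ≤ q ∧ 3 ≤ c ^ q ∧ (x⁻¹) ^ 2 ≤ c ^ q := by
  set c : ℝ := √(√(4 * b)) with hc
  have h4b : 1 < 4 * b := by linarith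
  have hc1 : 1 < c := by
    rw [hc]
    apply Real.lt_sqrt_of_sq_lt
    rw [one_pow]
    apply Real.lt_sqrt_of_sq_lt
    rw [one_pow]
    exact h4b
  have hc4 : c ^ 4 = 4 * b := by
    rw [show c ^ 4 = (c ^ 2) ^ 2 by ring, hc, Real.sq_sqrt (Real.sqrt_nonneg _),
      Real.sq_sqrt (by linarith)]
  set x : ℝ := min 1 ((c - 1) / 15) with hx
  have hx0 : 0 < x := lt_min one_pos (by linarith)
  have hx1 : x ≤ 1 := min_le_left _ _
  have hx2 : x ≤ (c - 1) / 15 := min_le_right _ _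
  have hxc : (1 + x) ^ 4 ≤ c := by
    have h1 : (1 + x) ^ 4 ≤ 1 + 15 * x := by
      have h2 : x ^ 2 ≤ x := by nlinarith
      have h3 : x ^ 3 ≤ x := by nlinarith [pow_pos hx0 2]
      have h4 : x ^ 4 ≤ x := by nlinarith [pow_pos hx0 3]
      nlinarith
    linarith
  have ht := tendsto_pow_atTop_atTop_of_one_lt hc1
  obtain ⟨q, hq⟩ := ((ht.eventually_ge_atTop 3).and ((ht.eventually_ge_atTop ((x⁻¹) ^ 2)).and
    (eventually_ge_atTop 2))).exists
  exact ⟨c, x, q, hc1, hc4.le, hx0, hx1, hxc, hq.2.2, hq.1, hq.2.1⟩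

lemma tendsto_first (q : ℕ) (hq : 0 < q) :
    Tendsto (fun m : ℕ => ENNReal.ofReal (4 * 16 ^ q * (1 / 2) ^ (m / q))) atTop (𝓝 0) := by
  rw [← ENNReal.ofReal_zero]
  apply ENNReal.tendsto_ofReal
  have h1 : Tendsto (fun m : ℕ => ((1:ℝ) / 2) ^ (m / q)) atTop (𝓝 0) :=
    (tendsto_pow_atTop_nhds_zero_of_lt_one (by norm_num) (by norm_num)).comp (tendsto_div_const q hq)
  simpa using h1.const_mul (4 * 16 ^ q)

lemma tendsto_second (q : ℕ) (hq : 0 < q) :
    Tendsto (fun m : ℕ => ENNReal.ofReal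
      (1 - (1 / (4 * 16 ^ q) / √(4 * 16 ^ q * (m + 1))) / 32) ^ (m / q)) atTop (𝓝 0) := by
  set a : ℝ := 4 * 16 ^ q with ha
  have ha0 : 0 < a := by positivity
  -- bound by exp
  have hbound : ∀ m : ℕ, ENNReal.ofReal (1 - (1 / a / √(a * (m + 1))) / 32) ^ (m / q) ≤
      ENNReal.ofReal (Real.exp (-((1 / a / √(a * (m + 1))) / 32 * ((m / q : ℕ) : ℝ)))) := by
    intro m
    set u : ℝ := (1 / a / √(a * (m + 1))) / 32 with hu
    have h1 : ENNReal.ofReal (1 - u) ≤ ENNReal.ofReal (Real.exp (-u)) :=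
      ENNReal.ofReal_le_ofReal (Real.one_sub_le_exp_neg u)
    calc ENNReal.ofReal (1 - u) ^ (m / q) ≤ ENNReal.ofReal (Real.exp (-u)) ^ (m / q) := by gcongr
      _ = ENNReal.ofReal (Real.exp (-u) ^ (m / q)) := by
          rw [ENNReal.ofReal_pow (Real.exp_nonneg _)]
      _ = _ := by
          rw [← Real.exp_nat_mul]
          congr 2
          ring
  refine tendsto_of_tendsto_of_tendsto_of_le_of_le tendsto_const_nhds ?_ (fun _ => zero_le) hbound
  rw [← ENNReal.ofReal_zero]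
  apply ENNReal.tendsto_ofReal
  apply Real.tendsto_exp_neg_atTop_nhds_zero.comp
  -- u_m * (m/q) → ∞
  have hlow : ∀ᶠ m : ℕ in atTop, (1 / a / √(2 * a) / 32 / (2 * q)) * √(m : ℝ) ≤
      (1 / a / √(a * (m + 1))) / 32 * ((m / q : ℕ) : ℝ) := by
    filter_upwards [eventually_ge_atTop (2 * q), eventually_ge_atTop 1] with m hm hm1
    have hm1' : (1:ℝ) ≤ m := by exact_mod_cast hm1
    have h1 : √(a * (m + 1)) ≤ √(2 * a) * √(m : ℝ) := by
      rw [← Real.sqrt_mul (by positivity)]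
      apply Real.sqrt_le_sqrt
      nlinarith
    have h2 : (m : ℝ) / (2 * q) ≤ ((m / q : ℕ) : ℝ) := by
      have h3 : m ≤ 2 * q * (m / q) := by
        have h4 : m < q * (m / q + 1) := Nat.lt_mul_div_succ m hq
        have h5 : 1 ≤ m / q := by
          rw [Nat.one_le_div_iff hq]
          omega
        have h6 : q * (m / q + 1) ≤ 2 * q * (m / q) := by nlinarith
        omega
      rw [div_le_iff₀ (by positivity)]
      have h7 : (m : ℝ) ≤ ((2 * q * (m / q) : ℕ) : ℝ) := by exact_mod_cast h3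
      rw [Nat.cast_mul, Nat.cast_mul] at h7
      push_cast at h7 ⊢
      linarith
    have hs0 : 0 < √(m : ℝ) := Real.sqrt_pos.mpr (by linarith)
    have hsa : 0 < √(a * (m + 1)) := Real.sqrt_pos.mpr (by positivity)
    have hs2a : 0 < √(2 * a) := Real.sqrt_pos.mpr (by positivity)
    calc (1 / a / √(2 * a) / 32 / (2 * q)) * √(m : ℝ)
        = (1 / a / (√(2 * a) * √(m : ℝ))) / 32 * ((√(m:ℝ) * √(m:ℝ)) / (2 * q)) := by
          field_simp
      _ = (1 / a / (√(2 * a) * √(m : ℝ))) / 32 * ((m : ℝ) / (2 * q)) := by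
          rw [Real.mul_self_sqrt (by linarith)]
      _ ≤ (1 / a / √(a * (m + 1))) / 32 * ((m / q : ℕ) : ℝ) := by
          gcongr
  refine tendsto_atTop_mono' _ hlow ?_
  apply Tendsto.const_mul_atTop
  · positivity
  · exact Real.tendsto_sqrt_atTop.comp tendsto_natCast_atTop_atTop

lemma eventually_large (c : ℝ) (hc : 1 < c) : ∀ᶠ m : ℕ in atTop, 8 * (m : ℝ) * 4 ≤ c ^ m := by
  have h1 := tendsto_pow_const_div_const_pow_of_one_lt 1 hc
  have h2 : ∀ᶠ m : ℕ in atTop, (m : ℝ) ^ 1 / c ^ m < 1 / 32 :=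
    h1.eventually_lt_const (by norm_num)
  filter_upwards [h2] with m hm
  rw [pow_one, div_lt_iff₀ (by positivity)] at hm
  linarith

/-- With probability tending to one, some vector is within `b ^ (m+1)` of the span of `m` others. -/
theorem tendsto_all_fail (b : ℝ) (hb : 1 / 4 < b) (hb1 : b ≤ 1) :
    Tendsto (fun m : ℕ => Measure.pi (fun _ : Fin (2 * m + 1) => stdGaussian (EE m))
      {g | ∀ T : Finset (Fin (2 * m + 1)), T.card = m → ∀ j ∉ T, b ^ (m + 1) < |⟪nv T g, g j⟫|})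
      atTop (𝓝 0) := by
  obtain ⟨c, x, q, hc, hc4, hx0, hx1, hxc, hq, hq3, hqx⟩ := exists_params b hb
  have hq0 : 0 < q := by omega
  have hlim := (tendsto_first q hq0).add (tendsto_second q hq0)
  rw [zero_add] at hlim
  refine tendsto_of_tendsto_of_tendsto_of_le_of_le' tendsto_const_nhds hlim
    (Eventually.of_forall fun _ => zero_le) ?_
  filter_upwards [eventually_ge_atTop 1, eventually_large c hc] with m hm hlarge
  exact fail_le m q hm hq b c x hc hc4 hb1 hx0 hx1 hxc hq3 hqx hlarge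

end Pool.Agent.H90.PR
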