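import Mathlib

/-!
Definitions for real phase retrieval with `2M-1` Gaussian measurement vectors in `ℝ^M`.
-/

open MeasureTheory ProbabilityTheory Filter Topology

namespace Pool.Agent.H90.PR

variable {N M : ℕ}

/-- `σ_M(B)`: the `M`-th largest singular value of a real matrix `B` with `M` columns, where Mathlib's
`LinearMap.singularValues` lists the singular values in decreasing order starting from index `0`
(and is `0` beyond the rank, so it is `0` if `B` has fewer than `M` rows). -/
noncomputable def sigma {R : Type*} [Fintype R] (B : Matrix R (Fin M) ℝ) : ℝ :=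
  (Matrix.toEuclideanLin B).singularValues (M - 1)

/-- `A_S`: the submatrix of `A` formed by the rows indexed by `S`. -/
def rowsIn (A : Matrix (Fin N) (Fin M) ℝ) (S : Finset (Fin N)) : Matrix S (Fin M) ℝ :=
  A.submatrix (fun i => (i : Fin N)) id

/-- `ω(A) = min { σ_M(A_S) : S ⊆ [N], rank(A_{Sᶜ}) < M }`. -/
noncomputable def omega (A : Matrix (Fin N) (Fin M) ℝ) : ℝ :=
  ⨅ S : {S : Finset (Fin N) // (rowsIn A Sᶜ).rank < M}, sigma (rowsIn A S)

/-- `max_k ‖A_k‖`, the largest Euclidean norm of a row. -/
noncomputable def maxRow (A : Matrix (Fin N) (Fin M) ℝ) : ℝ :=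
  ⨆ k : Fin N, √(∑ j, A k j ^ 2)

/-- The law of a `(2M-1) × M` matrix with i.i.d. standard Gaussian entries. -/
noncomputable def gaussLaw (M : ℕ) : Measure (Fin (2 * M - 1) → Fin M → ℝ) :=
  Measure.pi fun _ => Measure.pi fun _ => gaussianReal 0 1

/-- `β` is admissible if for some constant `C > 0`, with probability tending to one,
`ω(A) ≤ C · max_k ‖A_k‖ · β^M`. -/
def Admissible (β : ℝ) : Prop :=
  ∃ C : ℝ, 0 < C ∧ Tendsto
    (fun M : ℕ => gaussLaw M {A | omega (Matrix.of A) ≤ C * maxRow (Matrix.of A) * β ^ M})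
    atTop (𝓝 1)

end Pool.Agent.H90.PR
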