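import Pool.Agent.H90.PR.Defs
import Pool.Agent.H90.PR.Asymp

/-!
Deterministic relations between `omega` and distances of rows to spans of other rows.
-/

open MeasureTheory ProbabilityTheory Filter Topology
open scoped ENNReal NNReal RealInnerProductSpace

namespace Pool.Agent.H90.PR

section sv

variable {E F : Type*} [NormedAddCommGroup E] [InnerProductSpace ℝ E] [FiniteDimensional ℝ E]
  [NormedAddCommGroup F] [InnerProductSpace ℝ F] [FiniteDimensional ℝ F]

lemma singularValue_le (T : E →ₗ[ℝ] F) {m : ℕ} (hm : Module.finrank ℝ E = m + 1) (x : E)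
    (hx : ‖x‖ = 1) : T.singularValues m ≤ ‖T x‖ := by
  set hT := T.isSymmetric_adjoint_comp_self with hTdef
  set b := hT.eigenvectorBasis hm with hb
  have h1 : ⟪x, (LinearMap.adjoint T ∘ₗ T) x⟫ = ‖T x‖ ^ 2 := by
    rw [LinearMap.comp_apply, LinearMap.adjoint_inner_right, real_inner_self_eq_norm_sq]
  have h2 : ⟪x, (LinearMap.adjoint T ∘ₗ T) x⟫ =
      ∑ i, hT.eigenvalues hm i * ⟪b i, x⟫ ^ 2 := by
    rw [← b.sum_inner_mul_inner x]
    apply Finset.sum_congr rfl
    intro i _
    have h3 : ⟪b i, (LinearMap.adjoint T ∘ₗ T) x⟫ = hT.eigenvalues hm i * ⟪b i, x⟫ := by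
      rw [← hT (b i) x, hb, hT.apply_eigenvectorBasis hm i, inner_smul_left]
      simp
    rw [h3, real_inner_comm]
    ring
  have h4 : ∑ i, ⟪b i, x⟫ ^ 2 = (1:ℝ) := by
    have := b.sum_sq_inner_right x
    rw [hx, one_pow] at this
    simpa using this
  have h5 : (T.singularValues m) ^ 2 ≤ ‖T x‖ ^ 2 := by
    rw [← h1, h2]
    have h6 := T.sq_singularValues_of_lt hm (i := m) (Nat.lt_succ_self m)
    calc (T.singularValues m) ^ 2 = ∑ i, (T.singularValues m) ^ 2 * ⟪b i, x⟫ ^ 2 := by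
          rw [← Finset.mul_sum, h4, mul_one]
      _ ≤ _ := by
          apply Finset.sum_le_sum
          intro i _
          apply mul_le_mul_of_nonneg_right _ (sq_nonneg _)
          rw [h6]
          apply hT.eigenvalues_antitone hm
          exact Fin.mk_le_mk.mpr (Nat.lt_succ_iff.mp i.2)
  exact le_of_sq_le_sq h5 (norm_nonneg _)

lemma exists_singularValue (T : E →ₗ[ℝ] F) {m : ℕ} (hm : Module.finrank ℝ E = m + 1) :
    ∃ x : E, ‖x‖ = 1 ∧ ‖T x‖ = T.singularValues m := by
  set hT := T.isSymmetric_adjoint_comp_self with hTdef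
  set b := hT.eigenvectorBasis hm with hb
  set i : Fin (m + 1) := ⟨m, Nat.lt_succ_self m⟩ with hi
  refine ⟨b i, b.norm_eq_one i, ?_⟩
  have h6 := T.sq_singularValues_of_lt hm (i := m) (Nat.lt_succ_self m)
  have h1 : ‖T (b i)‖ ^ 2 = hT.eigenvalues hm i := by
    rw [← real_inner_self_eq_norm_sq, ← LinearMap.adjoint_inner_right, ← LinearMap.comp_apply, hb,
      hT.apply_eigenvectorBasis hm i, inner_smul_right, ← hb, real_inner_self_eq_norm_sq,
      b.norm_eq_one]
    simp
  have h2 : ‖T (b i)‖ ^ 2 = (T.singularValues m) ^ 2 := by rw [h1, h6]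
  exact (pow_left_inj₀ (norm_nonneg _) (T.singularValues_nonneg m) two_ne_zero).mp h2

end sv

variable {m : ℕ}

/-- The rows of a matrix as Euclidean vectors. -/
noncomputable def rowVec {N : ℕ} (A : Matrix (Fin N) (Fin (m + 1)) ℝ) (i : Fin N) : EE m :=
  WithLp.toLp 2 (A i)

lemma toEuclideanLin_rowsIn_apply {N : ℕ} (A : Matrix (Fin N) (Fin (m + 1)) ℝ) (S : Finset (Fin N))
    (x : EE m) (i : S) :
    (Matrix.toEuclideanLin (rowsIn A S) x) i = ⟪rowVec A i, x⟫ := by
  change ((rowsIn A S).mulVec x.ofLp) i = _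
  simp only [rowsIn, rowVec, PiLp.inner_apply, Matrix.mulVec, dotProduct, Matrix.submatrix_apply,
    id_eq]
  apply Finset.sum_congr rfl
  intro j _
  simp [mul_comm]

lemma norm_sq_rowsIn {N : ℕ} (A : Matrix (Fin N) (Fin (m + 1)) ℝ) (S : Finset (Fin N))
    (x : EE m) :
    ‖Matrix.toEuclideanLin (rowsIn A S) x‖ ^ 2 = ∑ i ∈ S, ⟪rowVec A i, x⟫ ^ 2 := by
  rw [EuclideanSpace.real_norm_sq_eq]
  rw [← Finset.sum_coe_sort S (fun i => ⟪rowVec A i, x⟫ ^ 2)]
  apply Finset.sum_congr rfl
  intro i _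
  rw [toEuclideanLin_rowsIn_apply]

lemma sigma_nonneg {N : ℕ} (A : Matrix (Fin N) (Fin (m + 1)) ℝ) (S : Finset (Fin N)) :
    0 ≤ sigma (rowsIn A S) := LinearMap.singularValues_nonneg _ _

lemma sigma_le {N : ℕ} (A : Matrix (Fin N) (Fin (m + 1)) ℝ) (S : Finset (Fin N)) (x : EE m)
    (hx : ‖x‖ = 1) : sigma (rowsIn A S) ≤ √(∑ i ∈ S, ⟪rowVec A i, x⟫ ^ 2) := by
  rw [← norm_sq_rowsIn, Real.sqrt_sq (norm_nonneg _)]
  exact singularValue_le _ (by simp) x hx

lemma exists_sigma {N : ℕ} (A : Matrix (Fin N) (Fin (m + 1)) ℝ) (S : Finset (Fin N)) :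
    ∃ x : EE m, ‖x‖ = 1 ∧ √(∑ i ∈ S, ⟪rowVec A i, x⟫ ^ 2) = sigma (rowsIn A S) := by
  obtain ⟨x, hx, h⟩ := exists_singularValue (Matrix.toEuclideanLin (rowsIn A S)) (m := m) (by simp)
  refine ⟨x, hx, ?_⟩
  rw [← norm_sq_rowsIn, Real.sqrt_sq (norm_nonneg _), h]
  rfl

/-- `ω(A)` is at most the distance of a row to the span of `m` other rows. -/
lemma omega_le (A : Matrix (Fin (2 * m + 1)) (Fin (m + 1)) ℝ) (T : Finset (Fin (2 * m + 1)))
    (hT : T.card = m) (j : Fin (2 * m + 1)) (hj : j ∉ T) (hn : ‖nv T (rowVec A)‖ = 1) :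
    omega A ≤ |⟪nv T (rowVec A), rowVec A j⟫| := by
  set S : Finset (Fin (2 * m + 1)) := insert j T with hS
  have hSc : S.card = m + 1 := by rw [hS, Finset.card_insert_of_notMem hj, hT]
  have hrank : (rowsIn A Sᶜ).rank < m + 1 := by
    have h1 := Matrix.rank_le_card_height (rowsIn A Sᶜ)
    rw [Fintype.card_coe, Finset.card_compl, Fintype.card_fin, hSc] at h1
    omega
  have h2 : omega A ≤ sigma (rowsIn A S) := by
    unfold omega
    exact ciInf_le (Set.finite_range _).bddBelow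
      (⟨S, hrank⟩ : {S : Finset (Fin (2 * m + 1)) // (rowsIn A Sᶜ).rank < m + 1})
  refine h2.trans ((sigma_le A S _ hn).trans (le_of_eq ?_))
  rw [hS, Finset.sum_insert hj]
  have h3 : ∑ i ∈ T, ⟪rowVec A i, nv T (rowVec A)⟫ ^ 2 = (0:ℝ) := by
    apply Finset.sum_eq_zero
    intro i hi
    rw [real_inner_comm, inner_nv T hT (rowVec A) i hi]
    simp
  rw [h3, add_zero, Real.sqrt_sq_eq_abs, real_inner_comm]

/-- Dual basis argument: if a unit vector is almost orthogonal to `m+1` independent vectors then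
one of these is close to the span of the others. -/
lemma exists_close {N : ℕ} (g : Fin N → EE m) (S : Finset (Fin N)) (hSc : S.card = m + 1)
    (hind : LinearIndepOn ℝ g (S : Set (Fin N))) (x : EE m) (hx : ‖x‖ = 1) (t : ℝ)
    (ht : ∀ i ∈ S, |⟪g i, x⟫| ≤ t) :
    ∃ k ∈ S, |⟪nv (S.erase k) g, g k⟫| ≤ (m + 1) * t := by
  by_contra hcon
  push Not at hcon
  have ht0 : 0 ≤ t := by
    have hne : S.Nonempty := by rw [← Finset.card_pos]; omega
    obtain ⟨i, hi⟩ := hne
    exact (abs_nonneg _).trans (ht i hi)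
  have hcard : ∀ k ∈ S, (S.erase k).card = m := by
    intro k hk
    rw [Finset.card_erase_of_mem hk, hSc]
    rfl
  have hn : ∀ k ∈ S, ‖nv (S.erase k) g‖ = 1 := by
    intro k hk
    apply norm_nv _ (hcard k hk) g
    exact hind.mono (by exact_mod_cast Finset.erase_subset k S)
  set a : Fin N → ℝ := fun k => ⟪nv (S.erase k) g, g k⟫ with ha
  have hapos : ∀ k ∈ S, (m + 1) * t < |a k| := hcon
  have ha0 : ∀ k ∈ S, a k ≠ 0 := by
    intro k hk h
    have := hapos k hk
    rw [h, abs_zero] at this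
    have h2 : 0 ≤ ((m:ℝ) + 1) * t := by positivity
    linarith
  -- the span of the vectors
  have hspan : Submodule.span ℝ (g '' (S : Set (Fin N))) = ⊤ := by
    apply Submodule.eq_top_of_finrank_eq
    have h1 : Set.finrank ℝ (g '' (S : Set (Fin N))) = S.card := by
      have h2 : LinearIndependent ℝ (fun i : S => g i) := hind
      have h3 := finrank_span_eq_card h2
      have h4 : g '' (S : Set (Fin N)) = Set.range (fun i : S => g i) := by
        ext y
        constructor
        · rintro ⟨i, hi, rfl⟩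
          exact ⟨⟨i, hi⟩, rfl⟩
        · rintro ⟨i, rfl⟩
          exact ⟨i.1, i.2, rfl⟩
      rw [Set.finrank, h4, h3, Fintype.card_coe]
    rw [Set.finrank] at h1
    rw [h1, hSc]
    exact (finrank_euclideanSpace_fin (𝕜 := ℝ) (n := m + 1)).symm
  -- the expansion
  set z : EE m := x - ∑ k ∈ S, (⟪g k, x⟫ / a k) • nv (S.erase k) g with hz
  have hzero : ∀ j ∈ S, ⟪g j, z⟫ = (0:ℝ) := by
    intro j hj
    rw [hz, inner_sub_right, inner_sum]
    have h1 : ∑ k ∈ S, ⟪g j, (⟪g k, x⟫ / a k) • nv (S.erase k) g⟫ = ⟪g j, x⟫ := by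
      rw [Finset.sum_eq_single j]
      · rw [inner_smul_right, real_inner_comm (nv (S.erase j) g) (g j)]
        change ⟪g j, x⟫ / a j * a j = _
        rw [div_mul_cancel₀ _ (ha0 j hj)]
      · intro k hk hkj
        rw [inner_smul_right, real_inner_comm (nv (S.erase k) g) (g j),
          inner_nv (S.erase k) (hcard k hk) g j (Finset.mem_erase.mpr ⟨hkj.symm, hj⟩), mul_zero]
      · intro h; exact absurd hj h
    rw [h1, sub_self]
  have hz0 : z = 0 := by
    have h1 : z ∈ (Submodule.span ℝ (g '' (S : Set (Fin N))))ᗮ := by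
      rw [Submodule.mem_orthogonal]
      intro u hu
      induction hu using Submodule.span_induction with
      | mem y hy =>
        obtain ⟨j, hj, rfl⟩ := hy
        exact hzero j hj
      | zero => simp
      | add y y' _ _ h1 h2 => rw [inner_add_left, h1, h2, add_zero]
      | smul c y _ h1 => rw [inner_smul_left, h1, mul_zero]
    rw [hspan, Submodule.top_orthogonal_eq_bot, Submodule.mem_bot] at h1
    exact h1
  have hxe : x = ∑ k ∈ S, (⟪g k, x⟫ / a k) • nv (S.erase k) g := by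
    rw [hz, sub_eq_zero] at hz0
    exact hz0
  -- norm bound
  have hterm : ∀ k ∈ S, ‖(⟪g k, x⟫ / a k) • nv (S.erase k) g‖ ≤ t / |a k| := by
    intro k hk
    rw [norm_smul, hn k hk, mul_one, norm_div, Real.norm_eq_abs, Real.norm_eq_abs]
    have := ht k hk
    gcongr
  have hne : S.Nonempty := by rw [← Finset.card_pos]; omega
  have hlt : ∀ k ∈ S, t / |a k| < 1 / (m + 1) ∨ t = 0 := by
    intro k hk
    rcases eq_or_lt_of_le ht0 with h0 | h0
    · right; exact h0.symm
    · left
      have h1 := hapos k hk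
      rw [div_lt_div_iff₀ (abs_pos.mpr (ha0 k hk)) (by positivity)]
      linarith
  rcases eq_or_lt_of_le ht0 with h0 | h0
  · have hx0 : x = 0 := by
      rw [hxe]
      apply Finset.sum_eq_zero
      intro k hk
      have h1 := hterm k hk
      rw [← h0, zero_div] at h1
      exact norm_le_zero_iff.mp h1
    rw [hx0, norm_zero] at hx
    exact zero_ne_one hx
  · have h1 : ‖x‖ < 1 := by
      calc ‖x‖ = ‖∑ k ∈ S, (⟪g k, x⟫ / a k) • nv (S.erase k) g‖ := by rw [← hxe]
        _ ≤ ∑ k ∈ S, ‖(⟪g k, x⟫ / a k) • nv (S.erase k) g‖ := norm_sum_le _ _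
        _ ≤ ∑ k ∈ S, t / |a k| := Finset.sum_le_sum hterm
        _ < ∑ _k ∈ S, 1 / ((m:ℝ) + 1) := by
            apply Finset.sum_lt_sum_of_nonempty hne
            intro k hk
            rcases hlt k hk with h | h
            · exact h
            · exact absurd h h0.ne'
        _ = 1 := by
            rw [Finset.sum_const, hSc, nsmul_eq_mul]
            push_cast
            field_simp
    linarith

/-- The infimum defining `ω` is attained. -/
lemma exists_omega {N : ℕ} (A : Matrix (Fin N) (Fin (m + 1)) ℝ) :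
    ∃ S : Finset (Fin N), (rowsIn A Sᶜ).rank < m + 1 ∧ sigma (rowsIn A S) = omega A := by
  have hne : Nonempty {S : Finset (Fin N) // (rowsIn A Sᶜ).rank < m + 1} := by
    refine ⟨⟨Finset.univ, ?_⟩⟩
    have h1 := Matrix.rank_le_card_height (rowsIn A (Finset.univ : Finset (Fin N))ᶜ)
    rw [Fintype.card_coe, Finset.card_compl, Finset.card_univ, Nat.sub_self] at h1
    omega
  obtain ⟨S, hS⟩ := exists_eq_ciInf_of_finite
    (f := fun S : {S : Finset (Fin N) // (rowsIn A Sᶜ).rank < m + 1} => sigma (rowsIn A S.1))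
  exact ⟨S.1, S.2, hS⟩

/-- If all sets of at most `m+1` rows are independent and `ω(A) ≤ t`, some row is at distance at
most `(m+1) t` from the span of `m` others. -/
lemma exists_close_of_omega_le (A : Matrix (Fin (2 * m + 1)) (Fin (m + 1)) ℝ)
    (hgen : ∀ T : Finset (Fin (2 * m + 1)), T.card = m + 1 →
      LinearIndepOn ℝ (rowVec A) (T : Set (Fin (2 * m + 1)))) (t : ℝ) (ht : omega A ≤ t) :
    ∃ T : Finset (Fin (2 * m + 1)), T.card = m ∧ ∃ k, k ∉ T ∧ ‖nv T (rowVec A)‖ = 1 ∧
      |⟪nv T (rowVec A), rowVec A k⟫| ≤ (m + 1) * t := by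
  obtain ⟨S, hS, hSo⟩ := exists_omega A
  -- the complement of `S` has at most `m` elements
  have hcard : Sᶜ.card ≤ m := by
    by_contra hcon
    push Not at hcon
    obtain ⟨T, hTS, hTc⟩ := Finset.exists_subset_card_eq (s := Sᶜ) (n := m + 1) (by omega)
    have hli := hgen T hTc
    -- rank of the submatrix is at least m + 1
    have h1 : (rowsIn A T).rank ≤ (rowsIn A Sᶜ).rank := by
      have h2 : rowsIn A T = (rowsIn A Sᶜ).submatrix (fun i : T => (⟨i.1, hTS i.2⟩ : (Sᶜ : Finset _)))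
          (Equiv.refl (Fin (m + 1))) := by
        ext i j
        rfl
      rw [h2]
      exact Matrix.rank_submatrix_le _ _ _
    have h3 : (rowsIn A T).rank = m + 1 := by
      have h4 : LinearIndependent ℝ (fun i : T => rowVec A i) := hli
      have h5 : LinearIndependent ℝ (rowsIn A T).row := by
        have h6 := h4.map' (WithLp.linearEquiv 2 ℝ (Fin (m + 1) → ℝ)).toLinearMap
          (LinearEquiv.ker _)
        exact h6
      have h7 := h5.rank_matrix
      rw [h7, Fintype.card_coe, hTc]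
    omega
  have hScard : m + 1 ≤ S.card := by
    have := Finset.card_compl S
    rw [Fintype.card_fin] at this
    omega
  obtain ⟨x, hx, hxs⟩ := exists_sigma A S
  obtain ⟨S', hS'S, hS'c⟩ := Finset.exists_subset_card_eq hScard
  have hbound : ∀ i ∈ S', |⟪rowVec A i, x⟫| ≤ t := by
    intro i hi
    have h1 : |⟪rowVec A i, x⟫| ≤ √(∑ i ∈ S, ⟪rowVec A i, x⟫ ^ 2) := by
      apply Real.abs_le_sqrt
      exact Finset.single_le_sum (f := fun i => (⟪rowVec A i, x⟫ : ℝ) ^ 2)
        (fun i _ => sq_nonneg _) (hS'S hi)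
    rw [hxs, hSo] at h1
    exact h1.trans ht
  obtain ⟨k, hk, hkb⟩ := exists_close (rowVec A) S' hS'c (hgen S' hS'c) x hx t hbound
  have hec : (S'.erase k).card = m := by
    rw [Finset.card_erase_of_mem hk, hS'c]; rfl
  refine ⟨S'.erase k, hec, k, Finset.notMem_erase k S', ?_, hkb⟩
  apply norm_nv _ hec
  exact (hgen S' hS'c).mono (by exact_mod_cast Finset.erase_subset k S')

lemma maxRow_eq {N : ℕ} (A : Matrix (Fin N) (Fin (m + 1)) ℝ) :
    maxRow A = ⨆ k : Fin N, ‖rowVec A k‖ := by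
  unfold maxRow
  congr 1
  funext k
  rw [EuclideanSpace.norm_eq]
  simp [rowVec]

lemma le_maxRow {N : ℕ} (A : Matrix (Fin N) (Fin (m + 1)) ℝ) (k : Fin N) :
    ‖rowVec A k‖ ≤ maxRow A := by
  rw [maxRow_eq]
  exact le_ciSup (f := fun k : Fin N => ‖rowVec A k‖) (Set.finite_range _).bddAbove k

end Pool.Agent.H90.PR
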