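import Mathlib

/-!
Elementary facts on the standard Gaussian measure of a Euclidean space.
-/

open MeasureTheory ProbabilityTheory
open scoped ENNReal NNReal RealInnerProductSpace

namespace Pool.Agent.H90.PR

variable {E : Type*} [NormedAddCommGroup E] [InnerProductSpace ℝ E] [FiniteDimensional ℝ E]
  [MeasurableSpace E] [BorelSpace E]

/-- Law of a linear functional of a standard Gaussian vector. -/
lemma map_inner_stdGaussian (x : E) (hx : ‖x‖ = 1) :
    (stdGaussian E).map (fun a => ⟪x, a⟫) = gaussianReal 0 1 := by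
  have h := IsGaussian.map_eq_gaussianReal (μ := stdGaussian E) (innerSL ℝ x)
  have h2 : Var[(innerSL ℝ x : E → ℝ); stdGaussian E] = 1 := by
    rw [variance_dual_stdGaussian, innerSL_apply_norm, hx]; norm_num
  rw [h2, integral_strongDual_stdGaussian] at h
  simpa using h

/-- Upper bound for Gaussian measure of an interval. -/
lemma gaussianReal_Icc_le (c l : ℝ) :
    gaussianReal 0 1 (Set.Icc c (c + l)) ≤ ENNReal.ofReal (l / 2) := by
  rw [gaussianReal_apply 0 one_ne_zero]
  calc ∫⁻ x in Set.Icc c (c + l), gaussianPDF 0 1 x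
      ≤ ∫⁻ _x in Set.Icc c (c + l), ENNReal.ofReal (1/2) := by
        apply lintegral_mono
        intro x
        simp only [gaussianPDF_def]
        apply ENNReal.ofReal_le_ofReal
        rw [gaussianPDFReal_def]
        simp only [NNReal.coe_one, mul_one, sub_zero]
        have h1 : Real.exp (-x ^ 2 / 2) ≤ 1 := by
          rw [Real.exp_le_one_iff]; nlinarith [sq_nonneg x]
        have h2 : (√(2 * Real.pi))⁻¹ ≤ 1 / 2 := by
          rw [one_div]
          apply inv_anti₀ (by norm_num)
          apply Real.le_sqrt_of_sq_le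
          nlinarith [Real.pi_gt_three]
        have h3 : 0 ≤ (√(2 * Real.pi))⁻¹ := by positivity
        calc (√(2 * Real.pi))⁻¹ * Real.exp (-x ^ 2 / 2) ≤ (√(2 * Real.pi))⁻¹ * 1 := by gcongr
          _ ≤ 1 / 2 := by linarith
    _ = ENNReal.ofReal (1/2) * volume (Set.Icc c (c + l)) := by
        rw [setLIntegral_const]
    _ = ENNReal.ofReal (l / 2) := by
        rw [Real.volume_Icc, ← ENNReal.ofReal_mul (by norm_num)]
        congr 1; ring

/-- Lower bound for Gaussian measure of a short symmetric interval. -/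
lemma le_gaussianReal_Icc (t : ℝ) (ht : 0 ≤ t) (ht1 : t ≤ 1) :
    ENNReal.ofReal (t / 4) ≤ gaussianReal 0 1 (Set.Icc (-t) t) := by
  rw [gaussianReal_apply 0 one_ne_zero]
  calc ENNReal.ofReal (t / 4) ≤ ENNReal.ofReal (1/8) * volume (Set.Icc (-t) t) := by
        rw [Real.volume_Icc, ← ENNReal.ofReal_mul (by norm_num)]
        apply ENNReal.ofReal_le_ofReal
        linarith
    _ = ∫⁻ _x in Set.Icc (-t) t, ENNReal.ofReal (1/8) := by
        rw [setLIntegral_const]
    _ ≤ ∫⁻ x in Set.Icc (-t) t, gaussianPDF 0 1 x := by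
        apply setLIntegral_mono (by fun_prop)
        intro x hx
        simp only [gaussianPDF_def]
        apply ENNReal.ofReal_le_ofReal
        rw [gaussianPDFReal_def]
        simp only [NNReal.coe_one, mul_one, sub_zero]
        have hx2 : x ^ 2 ≤ 1 := by
          have := hx.1; have := hx.2
          nlinarith
        have h1 : 1 / 2 ≤ Real.exp (-x ^ 2 / 2) := by
          have := Real.add_one_le_exp (-x ^ 2 / 2)
          linarith
        have h2 : (1:ℝ) / 4 ≤ (√(2 * Real.pi))⁻¹ := by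
          rw [one_div]
          apply inv_anti₀ (by positivity)
          apply Real.sqrt_le_iff.mpr
          constructor
          · norm_num
          · nlinarith [Real.pi_lt_four]
        calc (1:ℝ)/8 = 1/4 * (1/2) := by norm_num
          _ ≤ (√(2 * Real.pi))⁻¹ * Real.exp (-x ^ 2 / 2) := by gcongr

lemma measurableSet_abs_inner_le (x : E) (t : ℝ) : MeasurableSet {a : E | |⟪x, a⟫| ≤ t} := by
  apply measurableSet_le <;> fun_prop

/-- Slab probability, upper bound. -/
lemma slab_le (x : E) (hx : ‖x‖ = 1) (t : ℝ) :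
    stdGaussian E {a | |⟪x, a⟫| ≤ t} ≤ ENNReal.ofReal t := by
  have h : {a : E | |⟪x, a⟫| ≤ t} = (fun a => ⟪x, a⟫) ⁻¹' (Set.Icc (-t) (-t + 2 * t)) := by
    ext a
    simp only [Set.mem_ofPred_eq, Set.mem_preimage, Set.mem_Icc, abs_le]
    constructor <;> rintro ⟨h1, h2⟩ <;> constructor <;> linarith
  rw [h, ← Measure.map_apply (by fun_prop) measurableSet_Icc, map_inner_stdGaussian x hx]
  refine (gaussianReal_Icc_le (-t) (2 * t)).trans ?_
  apply ENNReal.ofReal_le_ofReal
  linarith

/-- Slab probability, lower bound. -/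
lemma le_slab (x : E) (hx : ‖x‖ = 1) (t : ℝ) (ht : 0 ≤ t) (ht1 : t ≤ 1) :
    ENNReal.ofReal (t / 4) ≤ stdGaussian E {a | |⟪x, a⟫| ≤ t} := by
  have h : {a : E | |⟪x, a⟫| ≤ t} = (fun a => ⟪x, a⟫) ⁻¹' (Set.Icc (-t) t) := by
    ext a
    simp only [Set.mem_ofPred_eq, Set.mem_preimage, Set.mem_Icc, abs_le]
  rw [h, ← Measure.map_apply (by fun_prop) measurableSet_Icc, map_inner_stdGaussian x hx]
  exact le_gaussianReal_Icc t ht ht1

/-- Orthonormal functionals of a standard Gaussian vector are independent. -/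
lemma indepFun_inner (x y : E) (hxy : ⟪x, y⟫ = (0:ℝ)) :
    IndepFun (fun a : E => ⟪x, a⟫) (fun a : E => ⟪y, a⟫) (stdGaussian E) := by
  have hg : HasGaussianLaw (fun a : E => (⟪x, a⟫, ⟪y, a⟫)) (stdGaussian E) := by
    have h1 : HasGaussianLaw (fun a : E => a) (stdGaussian E) := by
      constructor
      simpa using (inferInstance : IsGaussian (stdGaussian E))
    exact h1.map_fun ((innerSL ℝ x).prod (innerSL ℝ y))
  apply hg.indepFun_of_covariance_eq_zero
  have h2 := covarianceBilin_stdGaussian (E := E)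
  have h3 : covarianceBilin (stdGaussian E) x y = cov[fun a : E => ⟪x, a⟫, fun a => ⟪y, a⟫; stdGaussian E] := by
    rw [covarianceBilin_apply_eq_cov]
    exact IsGaussian.memLp_two_id
  rw [← h3, h2]
  exact hxy

/-- Intersection of two slabs. -/
lemma two_slabs_le (x x' : E) (hx : ‖x‖ = 1) (hx' : ‖x'‖ = 1) (t d : ℝ) (ht : 0 ≤ t)
    (hd : 0 < d) (hρ : d ^ 2 ≤ 1 - ⟪x, x'⟫ ^ 2) :
    stdGaussian E {a | |⟪x, a⟫| ≤ t ∧ |⟪x', a⟫| ≤ t} ≤ ENNReal.ofReal (t ^ 2 / d) := by
  set ρ : ℝ := ⟪x, x'⟫ with hρdef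
  set s : ℝ := √(1 - ρ ^ 2) with hs
  have hs2 : s ^ 2 = 1 - ρ ^ 2 := Real.sq_sqrt (by nlinarith [sq_nonneg d])
  have hds : d ≤ s := by
    rw [hs]; exact Real.le_sqrt_of_sq_le hρ
  have hs0 : 0 < s := lt_of_lt_of_le hd hds
  set y : E := (1 / s) • (x' - ρ • x) with hy
  have hxx : ⟪x, x⟫ = (1:ℝ) := by rw [real_inner_self_eq_norm_sq, hx]; norm_num
  have hx'x' : ⟪x', x'⟫ = (1:ℝ) := by rw [real_inner_self_eq_norm_sq, hx']; norm_num
  have hxy : ⟪x, y⟫ = (0:ℝ) := by
    rw [hy, inner_smul_right, inner_sub_right, inner_smul_right, hxx, ← hρdef]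
    ring
  have hyn : ‖y‖ = 1 := by
    have h1 : ‖y‖ ^ 2 = 1 := by
      rw [← real_inner_self_eq_norm_sq, hy, inner_smul_left, inner_smul_right, inner_sub_left,
        inner_sub_right, inner_sub_right, inner_smul_left, inner_smul_left, inner_smul_right,
        inner_smul_right, hxx, hx'x', real_inner_comm x' x, real_inner_comm x x', ← hρdef]
      simp only [conj_trivial]
      have hsne : s ≠ 0 := hs0.ne'
      field_simp
      linarith
    nlinarith [norm_nonneg y]
  have hx'eq : x' = ρ • x + s • y := by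
    rw [hy, smul_smul]
    field_simp
    simp
  have hind := indepFun_inner x y hxy
  -- the event is contained in a product-type event, fibered over `⟪x, a⟫`
  have hmap : (stdGaussian E).map (fun a => ((⟪x, a⟫ : ℝ), (⟪y, a⟫ : ℝ))) =
      (gaussianReal 0 1).prod (gaussianReal 0 1) := by
    rw [(indepFun_iff_map_prod_eq_prod_map_map (by fun_prop) (by fun_prop)).mp hind,
      map_inner_stdGaussian x hx, map_inner_stdGaussian y hyn]
  set S : Set (ℝ × ℝ) := {p | |p.1| ≤ t ∧ |ρ * p.1 + s * p.2| ≤ t} with hS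
  have hSm : MeasurableSet S := by
    have : S = {p : ℝ × ℝ | |p.1| ≤ t} ∩ {p : ℝ × ℝ | |ρ * p.1 + s * p.2| ≤ t} := rfl
    rw [this]
    exact (measurableSet_le (by fun_prop) (by fun_prop)).inter
      (measurableSet_le (by fun_prop) (by fun_prop))
  have hset : {a : E | |⟪x, a⟫| ≤ t ∧ |⟪x', a⟫| ≤ t} =
      (fun a : E => ((⟪x, a⟫ : ℝ), (⟪y, a⟫ : ℝ))) ⁻¹' S := by
    ext a
    simp only [hS, Set.mem_ofPred_eq, Set.mem_preimage]
    have : ⟪x', a⟫ = ρ * ⟪x, a⟫ + s * ⟪y, a⟫ := by
      conv_lhs => rw [hx'eq]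
      rw [inner_add_left, inner_smul_left, inner_smul_left]
      simp
    rw [this]
  rw [hset, ← Measure.map_apply (by fun_prop) hSm, hmap, Measure.prod_apply hSm]
  calc ∫⁻ u, gaussianReal 0 1 (Prod.mk u ⁻¹' S) ∂gaussianReal 0 1
      ≤ ∫⁻ u, (Set.Icc (-t) (-t + 2 * t)).indicator (fun _ => ENNReal.ofReal (t / s)) u
          ∂gaussianReal 0 1 := by
        apply lintegral_mono
        intro u
        by_cases hu : u ∈ Set.Icc (-t) (-t + 2 * t)
        · rw [Set.indicator_of_mem hu]
          have h1 : Prod.mk u ⁻¹' S ⊆ Set.Icc ((-t - ρ * u) / s) ((-t - ρ * u) / s + 2 * t / s) := by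
            intro v hv
            simp only [hS, Set.mem_preimage, Set.mem_ofPred_eq, abs_le] at hv
            rw [Set.mem_Icc, div_le_iff₀ hs0, ← add_div, le_div_iff₀ hs0]
            constructor <;> nlinarith [hv.2.1, hv.2.2]
          refine (measure_mono h1).trans ((gaussianReal_Icc_le _ _).trans ?_)
          apply ENNReal.ofReal_le_ofReal
          apply le_of_eq; ring
        · rw [Set.indicator_of_notMem hu]
          have h1 : Prod.mk u ⁻¹' S = ∅ := by
            ext v
            simp only [hS, Set.mem_preimage, Set.mem_ofPred_eq, Set.mem_empty_iff_false, iff_false,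
              not_and]
            intro hv
            exfalso
            apply hu
            rw [abs_le] at hv
            rw [Set.mem_Icc]
            constructor <;> linarith [hv.1, hv.2]
          change gaussianReal 0 1 (Prod.mk u ⁻¹' S) ≤ 0
          rw [h1]; simp
    _ = ENNReal.ofReal (t / s) * gaussianReal 0 1 (Set.Icc (-t) (-t + 2 * t)) := by
        rw [lintegral_indicator_const measurableSet_Icc]
    _ ≤ ENNReal.ofReal (t / s) * ENNReal.ofReal (2 * t / 2) := by
        gcongr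
        exact gaussianReal_Icc_le _ _
    _ ≤ ENNReal.ofReal (t ^ 2 / d) := by
        rw [← ENNReal.ofReal_mul (by positivity)]
        apply ENNReal.ofReal_le_ofReal
        have : t / s ≤ t / d := by gcongr
        calc t / s * (2 * t / 2) = (t / s) * t := by ring
          _ ≤ (t / d) * t := by gcongr
          _ = t ^ 2 / d := by ring

/-- A proper subspace is a null set of the standard Gaussian measure. -/
lemma stdGaussian_submodule_eq_zero (W : Submodule ℝ E) (hW : W ≠ ⊤) :
    stdGaussian E (W : Set E) = 0 := by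
  have h1 : Wᗮ ≠ ⊥ := by
    intro h
    apply hW
    exact (Submodule.orthogonal_eq_bot_iff).mp h
  obtain ⟨x, hx, hx0⟩ := Submodule.exists_mem_ne_zero_of_ne_bot h1
  set y : E := (‖x‖⁻¹) • x with hy
  have hyn : ‖y‖ = 1 := by
    rw [hy, norm_smul, norm_inv, norm_norm, inv_mul_cancel₀ (norm_ne_zero_iff.mpr hx0)]
  have hsub : (W : Set E) ⊆ {a | |⟪y, a⟫| ≤ (0:ℝ)} := by
    intro a ha
    have : ⟪y, a⟫ = (0:ℝ) := by
      rw [hy, inner_smul_left, real_inner_comm, (Submodule.mem_orthogonal W x).mp hx a ha]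
      simp
    simp [this]
  have h2 := (measure_mono hsub).trans (slab_le y hyn 0)
  simpa using h2

/-- Markov bound for the norm of a Gaussian vector. -/
lemma lintegral_norm_sq :
    ∫⁻ a, ENNReal.ofReal (‖a‖ ^ 2) ∂(stdGaussian E) = ENNReal.ofReal (Module.finrank ℝ E) := by
  set b := stdOrthonormalBasis ℝ E with hb
  have h1 : ∀ a : E, ‖a‖ ^ 2 = ∑ i, ⟪b i, a⟫ ^ 2 := by
    intro a
    rw [← b.sum_sq_inner_right a]
  have h2 : ∀ i, ∫⁻ a, ENNReal.ofReal (⟪b i, a⟫ ^ 2) ∂(stdGaussian E) = 1 := by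
    intro i
    have h3 := map_inner_stdGaussian (b i) (b.orthonormal.1 i)
    have h4 : ∫⁻ a, ENNReal.ofReal (⟪b i, a⟫ ^ 2) ∂(stdGaussian E) =
        ∫⁻ x, ENNReal.ofReal (x ^ 2) ∂(gaussianReal 0 1) := by
      rw [← h3, lintegral_map (by fun_prop) (by fun_prop)]
    rw [h4, ← ofReal_integral_eq_lintegral_ofReal]
    · have h5 : ∫ x, x ^ 2 ∂(gaussianReal 0 1) = 1 := by
        have h6 := variance_id_gaussianReal (μ := 0) (v := 1)
        rw [variance_eq_integral (by fun_prop)] at h6
        simpa using h6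
      rw [h5]; simp
    · exact (memLp_id_gaussianReal' 2 (by norm_num)).integrable_sq
    · filter_upwards with x
      positivity
  simp_rw [h1]
  calc ∫⁻ a, ENNReal.ofReal (∑ i, ⟪b i, a⟫ ^ 2) ∂(stdGaussian E)
      = ∫⁻ a, ∑ i, ENNReal.ofReal (⟪b i, a⟫ ^ 2) ∂(stdGaussian E) := by
        congr 1
        ext a
        rw [ENNReal.ofReal_sum_of_nonneg (fun i _ => by positivity)]
    _ = ∑ i, ∫⁻ a, ENNReal.ofReal (⟪b i, a⟫ ^ 2) ∂(stdGaussian E) := by
        rw [lintegral_finsetSum]
        intro i _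
        fun_prop
    _ = _ := by
        simp_rw [h2]
        simp

/-- Markov bound for the norm of a Gaussian vector. -/
lemma norm_tail (K : ℝ) (hK : 0 < K) :
    stdGaussian E {a | K ≤ ‖a‖} ≤ ENNReal.ofReal ((Module.finrank ℝ E : ℝ) / K ^ 2) := by
  have h1 : {a : E | K ≤ ‖a‖} ⊆ {a | ENNReal.ofReal (K ^ 2) ≤ ENNReal.ofReal (‖a‖ ^ 2)} := by
    intro a ha
    simp only [Set.mem_ofPred_eq] at ha ⊢
    apply ENNReal.ofReal_le_ofReal
    gcongr
  refine (measure_mono h1).trans ?_
  have h2 := meas_ge_le_lintegral_div (μ := stdGaussian E)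
    (f := fun a => ENNReal.ofReal (‖a‖ ^ 2)) (by fun_prop) (ε := ENNReal.ofReal (K ^ 2))
    (by simp; positivity) ENNReal.ofReal_ne_top
  refine h2.trans ?_
  rw [lintegral_norm_sq, ENNReal.ofReal_div_of_pos (by positivity)]

end Pool.Agent.H90.PR
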