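import Pool.Agent.H90.PR.Gauss

/-!
Fubini lemma for product measures, genericity of Gaussian vectors, cofactor normals.
-/

open MeasureTheory ProbabilityTheory
open scoped ENNReal NNReal RealInnerProductSpace

namespace Pool.Agent.H90.PR

section fubini

variable {ι : Type*} [Fintype ι] [DecidableEq ι] {E : Type*} [MeasurableSpace E]

/-- Restriction of a family to a finite set of indices. -/
def res (T : Finset ι) (g : ι → E) : {i // i ∈ T} → E := fun i => g i

/-- Fubini bound: conditionally on the coordinates in `T`, the coordinates in `J` are independent. -/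
lemma fubini_bound (γ : Measure E) [IsProbabilityMeasure γ] (T J : Finset ι) (hTJ : Disjoint T J)
    (S : Set (({i // i ∈ T} → E) × E)) (hS : MeasurableSet S) (η : ℝ≥0∞)
    (hη : ∀ u, γ (Prod.mk u ⁻¹' S) ≤ η) :
    Measure.pi (fun _ : ι => γ) {g | ∀ j ∈ J, (res T g, g j) ∈ S} ≤ η ^ J.card := by
  classical
  set e := MeasurableEquiv.piEquivPiSubtypeProd (fun _ : ι => E) (fun i => i ∈ T) with he
  have hmp := measurePreserving_piEquivPiSubtypeProd (fun _ : ι => γ) (fun i => i ∈ T)
  set W : Set (({i // i ∈ T} → E) × ({i // i ∉ T} → E)) :=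
    {p | ∀ j : {i // i ∉ T}, (j : ι) ∈ J → (p.1, p.2 j) ∈ S} with hW
  have hWm : MeasurableSet W := by
    have : W = ⋂ j : {i // i ∉ T}, {p | (j : ι) ∈ J → (p.1, p.2 j) ∈ S} := by
      ext p; simp [hW]
    rw [this]
    apply MeasurableSet.iInter
    intro j
    by_cases hj : (j : ι) ∈ J
    · simp only [hj, true_imp_iff]
      have hf : Measurable (fun p : ({i // i ∈ T} → E) × ({i // i ∉ T} → E) => (p.1, p.2 j)) := by
        fun_prop
      exact hf hS
    · simp [hj]
  have hset : {g : ι → E | ∀ j ∈ J, (res T g, g j) ∈ S} = e ⁻¹' W := by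
    ext g
    simp only [Set.mem_ofPred_eq, Set.mem_preimage, hW]
    constructor
    · intro h j hj
      exact h j hj
    · intro h j hj
      have hjT : j ∉ T := fun hh => (Finset.disjoint_left.mp hTJ) hh hj
      exact h ⟨j, hjT⟩ hj
  rw [hset, hmp.measure_preimage hWm.nullMeasurableSet, Measure.prod_apply hWm]
  have hsec : ∀ u : {i // i ∈ T} → E, (Measure.pi (fun _ : {i // i ∉ T} => γ)) (Prod.mk u ⁻¹' W)
      ≤ η ^ J.card := by
    intro u
    have h1 : Prod.mk u ⁻¹' W = Set.pi Set.univ (fun j : {i // i ∉ T} =>
        if (j : ι) ∈ J then Prod.mk u ⁻¹' S else Set.univ) := by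
      ext v
      simp only [Set.mem_preimage, hW, Set.mem_ofPred_eq, Set.mem_pi, Set.mem_univ, true_imp_iff]
      constructor
      · intro h j
        by_cases hj : (j : ι) ∈ J
        · simp only [hj, if_true, Set.mem_preimage]
          exact h j hj
        · simp [hj]
      · intro h j hj
        have := h j
        simpa [hj] using this
    rw [h1, Measure.pi_pi]
    have h2 : ∀ j : {i // i ∉ T}, γ (if (j : ι) ∈ J then Prod.mk u ⁻¹' S else Set.univ) ≤
        if (j : ι) ∈ J then η else 1 := by
      intro j
      split_ifs
      · exact hη u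
      · simp
    calc ∏ j : {i // i ∉ T}, γ (if (j : ι) ∈ J then Prod.mk u ⁻¹' S else Set.univ)
        ≤ ∏ j : {i // i ∉ T}, (if (j : ι) ∈ J then η else 1) :=
          Finset.prod_le_prod' (fun j _ => h2 j)
      _ = η ^ J.card := by
          rw [Finset.prod_ite, Finset.prod_const, Finset.prod_const_one, mul_one]
          congr 1
          rw [← Finset.card_map (Function.Embedding.subtype _)]
          congr 1
          ext i
          simp only [Finset.mem_map, Finset.mem_filter, Finset.mem_univ, true_and,
            Function.Embedding.subtype_apply, Subtype.exists, exists_and_left, exists_prop]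
          constructor
          · rintro ⟨a, ha, _, rfl⟩; exact ha
          · intro hi
            exact ⟨i, hi, fun hh => (Finset.disjoint_left.mp hTJ) hh hi, rfl⟩
  refine (lintegral_mono hsec).trans ?_
  simp

end fubini

section generic

variable {ι : Type*} [Fintype ι] [DecidableEq ι]
variable {E : Type*} [NormedAddCommGroup E] [InnerProductSpace ℝ E] [FiniteDimensional ℝ E]
  [MeasurableSpace E] [BorelSpace E]

/-- Almost surely, any family of at most `dim E` of the vectors is linearly independent. -/
lemma ae_linearIndepOn (T : Finset ι) (hT : T.card ≤ Module.finrank ℝ E) :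
    ∀ᵐ g ∂(Measure.pi (fun _ : ι => stdGaussian E)), LinearIndepOn ℝ g (T : Set ι) := by
  induction T using Finset.induction_on with
  | empty => simp
  | insert k T hk ih =>
    rw [Finset.card_insert_of_notMem hk] at hT
    have ih' := ih (by omega)
    have h2 : ∀ᵐ g ∂(Measure.pi (fun _ : ι => stdGaussian E)),
        LinearIndepOn ℝ g (T : Set ι) → LinearIndepOn ℝ g ((insert k T : Finset ι) : Set ι) := by
      set S : Set (({i // i ∈ T} → E) × E) :=
        {p | LinearIndependent ℝ p.1 ∧ p.2 ∈ Submodule.span ℝ (Set.range p.1)} with hS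
      have hSm : MeasurableSet S := by
        have h3 : S = {p : ({i // i ∈ T} → E) × E | LinearIndependent ℝ p.1} ∩
            {p : ({i // i ∈ T} → E) × E | LinearIndependent ℝ
              (fun o : Option {i // i ∈ T} => Option.casesOn' o p.2 p.1)}ᶜ := by
          ext p
          simp only [hS, Set.mem_inter_iff, Set.mem_ofPred_eq, Set.mem_compl_iff,
            linearIndependent_option', not_and, not_not]
          tauto
        rw [h3]
        apply MeasurableSet.inter
        · have : IsOpen {p : ({i // i ∈ T} → E) × E | LinearIndependent ℝ p.1} :=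
            (isOpen_setOfPred_linearIndependent (𝕜 := ℝ) (E := E)
              (ι := {i // i ∈ T})).preimage continuous_fst
          exact this.measurableSet
        · apply MeasurableSet.compl
          have hc : Continuous (fun p : ({i // i ∈ T} → E) × E =>
              (fun o : Option {i // i ∈ T} => Option.casesOn' o p.2 p.1 : Option {i // i ∈ T} → E)) := by
            apply continuous_pi
            intro o
            cases o with
            | none => exact continuous_snd
            | some i =>
              simp only [Option.casesOn'_some]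
              fun_prop
          exact ((isOpen_setOfPred_linearIndependent (𝕜 := ℝ) (E := E)
              (ι := Option {i // i ∈ T})).preimage hc).measurableSet
      have hη : ∀ u, stdGaussian E (Prod.mk u ⁻¹' S) ≤ 0 := by
        intro u
        by_cases hu : LinearIndependent ℝ u
        · have hsub : Prod.mk u ⁻¹' S ⊆ ((Submodule.span ℝ (Set.range u) : Submodule ℝ E) : Set E) := by
            intro y hy
            exact hy.2
          refine (measure_mono hsub).trans (le_of_eq ?_)
          apply stdGaussian_submodule_eq_zero
          intro htop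
          have h4 := finrank_span_eq_card hu
          rw [htop, finrank_top] at h4
          simp at h4
          omega
        · have : Prod.mk u ⁻¹' S = ∅ := by
            ext y
            simp [hS, hu]
          rw [this]; simp
      have h5 := fubini_bound (stdGaussian E) T {k} (by simpa using hk) S hSm 0 hη
      simp only [Finset.mem_singleton, forall_eq, Finset.card_singleton, pow_one,
        nonpos_iff_eq_zero] at h5
      rw [ae_iff]
      refine measure_mono_null ?_ h5
      intro g hg
      simp only [Set.mem_ofPred_eq, Classical.not_imp] at hg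
      obtain ⟨h6, h7⟩ := hg
      refine ⟨h6, ?_⟩
      rw [Finset.coe_insert, linearIndepOn_insert (by simpa using hk)] at h7
      push Not at h7
      have h8 := h7 h6
      have h9 : g '' (T : Set ι) = Set.range (res T g) := by
        ext y
        simp [res]
      rw [h9] at h8
      exact h8
    filter_upwards [ih', h2] with g h3 h4
    exact h4 h3

end generic

section cofactor

variable {m : ℕ}

/-- The Euclidean space of dimension `m + 1`. -/
abbrev EE (m : ℕ) := EuclideanSpace ℝ (Fin (m + 1))

/-- The cofactor vector (generalised cross product) of `m` vectors of `ℝ^(m+1)`. -/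
noncomputable def cof (u : Fin m → EE m) : EE m :=
  WithLp.toLp 2 (fun l => (-1) ^ (l : ℕ) *
    Matrix.det (Matrix.of fun i j : Fin m => u i (l.succAbove j)))

/-- The matrix with given rows. -/
def rowsMat (v : Fin (m + 1) → EE m) : Matrix (Fin (m + 1)) (Fin (m + 1)) ℝ :=
  Matrix.of fun i j => v i j

lemma inner_cof (a : EE m) (u : Fin m → EE m) :
    ⟪cof u, a⟫ = Matrix.det (rowsMat (Fin.cons a u : Fin (m + 1) → EE m)) := by
  rw [Matrix.det_succ_row_zero, PiLp.inner_apply]
  apply Finset.sum_congr rfl
  intro l _
  have h1 : (rowsMat (Fin.cons a u : Fin (m + 1) → EE m)) 0 l = a l := rfl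
  have h2 : (Matrix.submatrix (rowsMat (Fin.cons a u : Fin (m + 1) → EE m))
      Fin.succ l.succAbove) = (Matrix.of fun i j : Fin m => u i (l.succAbove j)) := by
    ext i j
    simp [Matrix.submatrix_apply, rowsMat]
  rw [h1, h2]
  simp only [cof, RCLike.inner_apply, conj_trivial]
  ring

lemma inner_cof_self (u : Fin m → EE m) (i : Fin m) : ⟪cof u, u i⟫ = (0:ℝ) := by
  rw [inner_cof]
  apply Matrix.det_zero_of_row_eq (i := 0) (j := i.succ) (Fin.succ_ne_zero i).symm
  ext j
  simp [rowsMat]

lemma continuous_cof : Continuous (cof : (Fin m → EE m) → EE m) := by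
  unfold cof
  apply (PiLp.continuous_toLp 2 _).comp
  apply continuous_pi
  intro l
  apply Continuous.mul continuous_const
  apply Continuous.matrix_det
  apply continuous_pi
  intro i
  apply continuous_pi
  intro j
  fun_prop

lemma cof_ne_zero (u : Fin m → EE m) (hu : LinearIndependent ℝ u) : cof u ≠ 0 := by
  intro h0
  have h1 : ∃ a : EE m, a ∉ Submodule.span ℝ (Set.range u) := by
    by_contra hcon
    push Not at hcon
    have htop : Submodule.span ℝ (Set.range u) = ⊤ := by
      rw [eq_top_iff]; intro a _; exact hcon a
    have h4 := finrank_span_eq_card hu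
    rw [htop, finrank_top] at h4
    simp at h4
  obtain ⟨a, ha⟩ := h1
  have h2 : LinearIndependent ℝ (Fin.cons a u : Fin (m + 1) → EE m) :=
    linearIndependent_finCons.mpr ⟨hu, ha⟩
  have h3 := inner_cof a u
  rw [h0, inner_zero_left] at h3
  have h4 : LinearIndependent ℝ (rowsMat (Fin.cons a u : Fin (m + 1) → EE m)).row := by
    have := h2.map' (WithLp.linearEquiv 2 ℝ (Fin (m + 1) → ℝ)).toLinearMap (by
      rw [LinearEquiv.ker])
    exact this
  have h5 := Matrix.linearIndependent_rows_iff_isUnit.mp h4
  rw [Matrix.isUnit_iff_isUnit_det, isUnit_iff_ne_zero] at h5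
  exact h5 h3.symm

/-- The normalised cofactor vector. -/
noncomputable def nrm (u : Fin m → EE m) : EE m := (‖cof u‖⁻¹) • cof u

lemma measurable_nrm : Measurable (nrm : (Fin m → EE m) → EE m) := by
  unfold nrm
  have := continuous_cof (m := m)
  have h1 : Measurable (fun u : Fin m → EE m => ‖cof u‖⁻¹) := this.norm.measurable.inv
  have h2 : Measurable (fun u : Fin m → EE m => cof u) := this.measurable
  exact h1.smul h2

lemma norm_nrm (u : Fin m → EE m) (hu : LinearIndependent ℝ u) : ‖nrm u‖ = 1 := by
  unfold nrm
  rw [norm_smul, norm_inv, norm_norm, inv_mul_cancel₀ (norm_ne_zero_iff.mpr (cof_ne_zero u hu))]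

lemma norm_nrm_or (u : Fin m → EE m) : ‖nrm u‖ = 1 ∨ nrm u = 0 := by
  by_cases h : cof u = 0
  · right; simp [nrm, h]
  · left
    unfold nrm
    rw [norm_smul, norm_inv, norm_norm, inv_mul_cancel₀ (norm_ne_zero_iff.mpr h)]

lemma inner_nrm_self (u : Fin m → EE m) (i : Fin m) : ⟪nrm u, u i⟫ = (0:ℝ) := by
  unfold nrm
  rw [inner_smul_left, inner_cof_self]
  simp

end cofactor

end Pool.Agent.H90.PR
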