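import Pool.Agent.H90.PR.Det

/-!
Upper and lower estimates for `omega` of a Gaussian matrix.
-/

open MeasureTheory ProbabilityTheory Filter Topology
open scoped ENNReal NNReal RealInnerProductSpace

namespace Pool.Agent.H90.PR

/-- Gaussian vectors. -/
noncomputable def mu (m : ℕ) : Measure (Fin (2 * m + 1) → EE m) :=
  Measure.pi (fun _ : Fin (2 * m + 1) => stdGaussian (EE m))

instance (m : ℕ) : IsProbabilityMeasure (mu m) := by unfold mu; infer_instance

/-- Law of the matrix with `2m+1` rows and `m+1` columns. -/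
noncomputable def gl (m : ℕ) : Measure (Fin (2 * m + 1) → Fin (m + 1) → ℝ) :=
  Measure.pi fun _ => Measure.pi fun _ => gaussianReal 0 1

lemma gaussLaw_succ (m : ℕ) : gaussLaw (m + 1) = gl m := rfl

lemma gl_preimage_le (m : ℕ) (s : Set (Fin (2 * m + 1) → EE m)) :
    gl m {A | (fun i => WithLp.toLp 2 (A i)) ∈ s} ≤ mu m s := by
  have h1 : (gl m).map (fun A i => WithLp.toLp 2 (A i)) = mu m := by
    unfold gl mu
    have h2 := Measure.pi_map_pi (μ := fun _ : Fin (2 * m + 1) =>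
      (Measure.pi fun _ : Fin (m + 1) => gaussianReal 0 1))
      (f := fun _ => (WithLp.toLp 2 : (Fin (m + 1) → ℝ) → EE m)) (fun _ => by fun_prop)
    rw [h2, map_pi_eq_stdGaussian]
  have h3 : Measurable (fun (A : Fin (2 * m + 1) → Fin (m + 1) → ℝ) (i : Fin (2 * m + 1)) =>
      (WithLp.toLp 2 (A i) : EE m)) := by
    apply measurable_pi_lambda
    intro i
    exact (WithLp.measurable_toLp 2 (Fin (m + 1) → ℝ)).comp (measurable_pi_apply i)
  rw [← h1]
  exact Measure.le_map_apply h3.aemeasurable s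

lemma ae_norm_nv (m : ℕ) : mu m {g | ¬ ∀ T : Finset (Fin (2 * m + 1)), T.card = m →
    ‖nv T g‖ = 1} = 0 := by
  have hae : ∀ᵐ g ∂(mu m), ∀ T : Finset (Fin (2 * m + 1)), T.card = m → ‖nv T g‖ = 1 := by
    rw [ae_all_iff]
    intro T
    by_cases hT : T.card = m
    · have h1 := ae_linearIndepOn (E := EE m) T (by simp [hT])
      filter_upwards [h1] with g hg _
      exact norm_nv T hT g hg
    · exact Eventually.of_forall fun g h => absurd h hT
  exact ae_iff.mp hae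

lemma ae_generic (m : ℕ) : mu m {g | ¬ ∀ T : Finset (Fin (2 * m + 1)), T.card = m + 1 →
    LinearIndepOn ℝ g (T : Set (Fin (2 * m + 1)))} = 0 := by
  have hae : ∀ᵐ g ∂(mu m), ∀ T : Finset (Fin (2 * m + 1)), T.card = m + 1 →
      LinearIndepOn ℝ g (T : Set (Fin (2 * m + 1))) := by
    rw [ae_all_iff]
    intro T
    by_cases hT : T.card = m + 1
    · have h1 := ae_linearIndepOn (E := EE m) T (by simp [hT])
      filter_upwards [h1] with g hg _
      exact hg
    · exact Eventually.of_forall fun g h => absurd h hT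
  exact ae_iff.mp hae

/-- marginals -/
lemma mu_eval (m : ℕ) (k : Fin (2 * m + 1)) (s : Set (EE m)) (hs : MeasurableSet s) :
    mu m {g | g k ∈ s} = stdGaussian (EE m) s := by
  have h := measurePreserving_eval (fun _ : Fin (2 * m + 1) => stdGaussian (EE m)) k
  exact h.measure_preimage hs.nullMeasurableSet

lemma mu_norm_small (m : ℕ) (k : Fin (2 * m + 1)) (ε : ℝ) :
    mu m {g | ‖g k‖ ≤ ε} ≤ ENNReal.ofReal ε := by
  set e : EE m := EuclideanSpace.single 0 1 with he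
  have hen : ‖e‖ = 1 := by simp [he]
  have h1 : {g : Fin (2 * m + 1) → EE m | ‖g k‖ ≤ ε} ⊆ {g | g k ∈ {a | |⟪e, a⟫| ≤ ε}} := by
    intro g hg
    simp only [Set.mem_ofPred_eq] at hg ⊢
    calc |⟪e, g k⟫| ≤ ‖e‖ * ‖g k‖ := abs_real_inner_le_norm _ _
      _ = ‖g k‖ := by rw [hen, one_mul]
      _ ≤ ε := hg
  refine (measure_mono h1).trans ?_
  rw [mu_eval m k _ (measurableSet_abs_inner_le e ε)]
  exact slab_le e hen ε

lemma mu_norm_large (m : ℕ) (K : ℝ) (hK : 0 < K) :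
    mu m {g | ∃ k, K ≤ ‖g k‖} ≤ ENNReal.ofReal ((2 * m + 1) * ((m + 1) / K ^ 2)) := by
  have h1 : {g : Fin (2 * m + 1) → EE m | ∃ k, K ≤ ‖g k‖} =
      ⋃ k ∈ (Finset.univ : Finset (Fin (2 * m + 1))), {g | g k ∈ {a | K ≤ ‖a‖}} := by
    ext g
    simp
  rw [h1]
  refine (measure_biUnion_finset_le _ _).trans ?_
  have h2 : ∀ k ∈ (Finset.univ : Finset (Fin (2 * m + 1))),
      mu m {g | g k ∈ {a | K ≤ ‖a‖}} ≤ ENNReal.ofReal ((m + 1) / K ^ 2) := by
    intro k _
    rw [mu_eval m k _ (measurableSet_le measurable_const measurable_norm)]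
    refine (norm_tail K hK).trans (le_of_eq ?_)
    simp
  refine (Finset.sum_le_sum h2).trans (le_of_eq ?_)
  rw [Finset.sum_const, Finset.card_univ, Fintype.card_fin, nsmul_eq_mul,
    ENNReal.ofReal_mul (by positivity)]
  congr 1
  rw [← ENNReal.ofReal_natCast]
  push_cast
  rfl

lemma mu_close (m : ℕ) (s : ℝ) :
    mu m {g | ∃ T : Finset (Fin (2 * m + 1)), T.card = m ∧ ∃ k, k ∉ T ∧ ‖nv T g‖ = 1 ∧
      |⟪nv T g, g k⟫| ≤ s} ≤ ENNReal.ofReal (2 ^ (2 * m + 1) * (2 * m + 1) * s) := by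
  have h1 : {g : Fin (2 * m + 1) → EE m | ∃ T : Finset (Fin (2 * m + 1)), T.card = m ∧
      ∃ k, k ∉ T ∧ ‖nv T g‖ = 1 ∧ |⟪nv T g, g k⟫| ≤ s} ⊆
      ⋃ T ∈ (Finset.univ : Finset (Finset (Fin (2 * m + 1)))),
        ⋃ k ∈ (Finset.univ : Finset (Fin (2 * m + 1))),
          {g | k ∉ T ∧ ‖nv T g‖ = 1 ∧ |⟪nv T g, g k⟫| ≤ s} := by
    rintro g ⟨T, _, k, hk, h⟩
    simp only [Set.mem_iUnion]
    exact ⟨T, Finset.mem_univ _, k, Finset.mem_univ _, hk, h⟩
  refine (measure_mono h1).trans ((measure_biUnion_finset_le _ _).trans ?_)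
  have h2 : ∀ T ∈ (Finset.univ : Finset (Finset (Fin (2 * m + 1)))),
      mu m (⋃ k ∈ (Finset.univ : Finset (Fin (2 * m + 1))),
          {g | k ∉ T ∧ ‖nv T g‖ = 1 ∧ |⟪nv T g, g k⟫| ≤ s}) ≤
        ∑ _k : Fin (2 * m + 1), ENNReal.ofReal s := by
    intro T _
    refine (measure_biUnion_finset_le _ _).trans (Finset.sum_le_sum fun k _ => ?_)
    by_cases hk : k ∈ T
    · have : {g : Fin (2 * m + 1) → EE m | k ∉ T ∧ ‖nv T g‖ = 1 ∧ |⟪nv T g, g k⟫| ≤ s} = ∅ := by
        ext g; simp [hk]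
      rw [this]; simp
    · refine (measure_mono ?_).trans (single_bound T k hk s)
      intro g hg
      exact hg.2
  refine (Finset.sum_le_sum h2).trans (le_of_eq ?_)
  rw [Finset.sum_const, Finset.sum_const, Finset.card_univ, Finset.card_univ, Fintype.card_finset,
    Fintype.card_fin, nsmul_eq_mul, nsmul_eq_mul, ENNReal.ofReal_mul (by positivity),
    ENNReal.ofReal_mul (by positivity), mul_assoc]
  congr 1
  · rw [← ENNReal.ofReal_natCast]
    push_cast
    rfl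
  · congr 1
    rw [← ENNReal.ofReal_natCast]
    push_cast
    rfl

/-- Upper estimate. -/
theorem tendsto_upper (β : ℝ) (hβ : 1 / 4 < β) (C : ℝ) (hC : 0 < C) :
    Tendsto (fun m : ℕ => gl m
      {A | ¬ omega (Matrix.of A) ≤ C * maxRow (Matrix.of A) * β ^ (m + 1)}) atTop (𝓝 0) := by
  set b : ℝ := (1 / 4 + min β 1) / 2 with hb
  have hmin : 1 / 4 < min β 1 := lt_min hβ (by norm_num)
  have hb4 : 1 / 4 < b := by rw [hb]; linarith
  have hbmin : b < min β 1 := by rw [hb]; linarith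
  have hbβ : b < β := hbmin.trans_le (min_le_left _ _)
  have hb1 : b ≤ 1 := (hbmin.trans_le (min_le_right _ _)).le
  have hβ0 : 0 < β := by linarith
  have hb0 : 0 < b := by linarith
  have hfail := tendsto_all_fail b hb4 hb1
  have hsmall : Tendsto (fun m : ℕ => ENNReal.ofReal (C⁻¹ * (b / β) ^ (m + 1))) atTop (𝓝 0) := by
    rw [← ENNReal.ofReal_zero]
    apply ENNReal.tendsto_ofReal
    have h1 : Tendsto (fun m : ℕ => (b / β) ^ (m + 1)) atTop (𝓝 0) :=
      (tendsto_add_atTop_iff_nat 1).mpr (tendsto_pow_atTop_nhds_zero_of_lt_one (by positivity)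
        ((div_lt_one hβ0).mpr hbβ))
    simpa using h1.const_mul C⁻¹
  have hlim := hfail.add hsmall
  rw [add_zero] at hlim
  refine tendsto_of_tendsto_of_tendsto_of_le_of_le tendsto_const_nhds hlim
    (fun _ => zero_le) (fun m => ?_)
  set B1 : Set (Fin (2 * m + 1) → EE m) := {g | ∀ T : Finset (Fin (2 * m + 1)), T.card = m →
    ∀ j ∉ T, b ^ (m + 1) < |⟪nv T g, g j⟫|} with hB1
  set B2 : Set (Fin (2 * m + 1) → EE m) := {g | ‖g 0‖ ≤ C⁻¹ * (b / β) ^ (m + 1)} with hB2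
  set B3 : Set (Fin (2 * m + 1) → EE m) := {g | ¬ ∀ T : Finset (Fin (2 * m + 1)), T.card = m →
    ‖nv T g‖ = 1} with hB3
  have hsub : {A : Fin (2 * m + 1) → Fin (m + 1) → ℝ |
      ¬ omega (Matrix.of A) ≤ C * maxRow (Matrix.of A) * β ^ (m + 1)} ⊆
      {A | (fun i => WithLp.toLp 2 (A i)) ∈ (B1 ∪ B2) ∪ B3} := by
    intro A hA
    by_contra hcon
    simp only [Set.mem_ofPred_eq, Set.mem_union, not_or] at hcon
    obtain ⟨⟨h1, h2⟩, h3⟩ := hcon
    apply hA
    simp only [hB3, Set.mem_ofPred_eq, not_not] at h3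
    simp only [hB2, Set.mem_ofPred_eq, not_le] at h2
    simp only [hB1, Set.mem_ofPred_eq, not_forall, not_lt] at h1
    obtain ⟨T, hT, j, hj, hle⟩ := h1
    have ho := omega_le (Matrix.of A) T hT j hj (h3 T hT)
    have hmax := le_maxRow (Matrix.of A) 0
    have hmax' : C⁻¹ * (b / β) ^ (m + 1) ≤ maxRow (Matrix.of A) := h2.le.trans hmax
    calc omega (Matrix.of A) ≤ b ^ (m + 1) := ho.trans hle
      _ = C * (C⁻¹ * (b / β) ^ (m + 1)) * β ^ (m + 1) := by
          rw [← mul_assoc, mul_inv_cancel₀ hC.ne', one_mul, ← mul_pow, div_mul_cancel₀ _ hβ0.ne']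
      _ ≤ C * maxRow (Matrix.of A) * β ^ (m + 1) := by gcongr
  refine (measure_mono hsub).trans ((gl_preimage_le m _).trans ?_)
  refine (measure_union_le _ _).trans ?_
  rw [ae_norm_nv m, add_zero]
  refine (measure_union_le _ _).trans ?_
  exact add_le_add le_rfl (mu_norm_small m 0 _)

/-- Lower estimate. -/
theorem tendsto_lower (β : ℝ) (hβ0 : 0 < β) (hβ : β < 1 / 4) (C : ℝ) (hC : 0 < C) :
    Tendsto (fun m : ℕ => gl m
      {A | omega (Matrix.of A) ≤ C * maxRow (Matrix.of A) * β ^ (m + 1)}) atTop (𝓝 0) := by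
  have hbound : ∀ m : ℕ, gl m
      {A | omega (Matrix.of A) ≤ C * maxRow (Matrix.of A) * β ^ (m + 1)} ≤
      ENNReal.ofReal ((2 * m + 1) * ((m + 1) / (((m:ℝ) + 1) ^ 2) ^ 2)) +
      ENNReal.ofReal (2 ^ (2 * m + 1) * (2 * m + 1) * ((m + 1) *
        (C * ((m:ℝ) + 1) ^ 2 * β ^ (m + 1)))) := by
    intro m
    set B1 : Set (Fin (2 * m + 1) → EE m) := {g | ∃ k, ((m:ℝ) + 1) ^ 2 ≤ ‖g k‖} with hB1
    set B2 : Set (Fin (2 * m + 1) → EE m) := {g | ∃ T : Finset (Fin (2 * m + 1)), T.card = m ∧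
      ∃ k, k ∉ T ∧ ‖nv T g‖ = 1 ∧ |⟪nv T g, g k⟫| ≤ (m + 1) *
        (C * ((m:ℝ) + 1) ^ 2 * β ^ (m + 1))} with hB2
    set B3 : Set (Fin (2 * m + 1) → EE m) := {g | ¬ ∀ T : Finset (Fin (2 * m + 1)),
      T.card = m + 1 → LinearIndepOn ℝ g (T : Set (Fin (2 * m + 1)))} with hB3
    have hsub : {A : Fin (2 * m + 1) → Fin (m + 1) → ℝ |
        omega (Matrix.of A) ≤ C * maxRow (Matrix.of A) * β ^ (m + 1)} ⊆
        {A | (fun i => WithLp.toLp 2 (A i)) ∈ (B1 ∪ B2) ∪ B3} := by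
      intro A hA
      by_contra hcon
      simp only [Set.mem_ofPred_eq, Set.mem_union, not_or] at hcon
      obtain ⟨⟨h1, h2⟩, h3⟩ := hcon
      apply h2
      simp only [hB3, Set.mem_ofPred_eq, not_not] at h3
      simp only [hB1, Set.mem_ofPred_eq, not_exists, not_le] at h1
      have hmax : maxRow (Matrix.of A) ≤ ((m:ℝ) + 1) ^ 2 := by
        rw [maxRow_eq]
        apply ciSup_le
        intro k
        exact (h1 k).le
      apply exists_close_of_omega_le (Matrix.of A) h3 (C * ((m:ℝ) + 1) ^ 2 * β ^ (m + 1))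
      refine le_trans hA ?_
      gcongr
    refine (measure_mono hsub).trans ((gl_preimage_le m _).trans ?_)
    refine (measure_union_le _ _).trans ?_
    rw [ae_generic m, add_zero]
    refine (measure_union_le _ _).trans ?_
    exact add_le_add (mu_norm_large m _ (by positivity)) (mu_close m _)
  have hlim1 : Tendsto (fun m : ℕ =>
      ENNReal.ofReal ((2 * m + 1) * ((m + 1) / (((m:ℝ) + 1) ^ 2) ^ 2))) atTop (𝓝 0) := by
    rw [← ENNReal.ofReal_zero]
    apply ENNReal.tendsto_ofReal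
    have h1 : Tendsto (fun m : ℕ => 2 / ((m:ℝ) + 1)) atTop (𝓝 0) := by
      have := tendsto_one_div_add_atTop_nhds_zero_nat (𝕜 := ℝ)
      simpa [mul_one_div, div_eq_mul_inv] using this.const_mul 2
    refine squeeze_zero (fun m => by positivity) (fun m => ?_) h1
    have hm : (0:ℝ) < (m:ℝ) + 1 := by positivity
    rw [show (2 * (m:ℝ) + 1) * ((m + 1) / (((m:ℝ) + 1) ^ 2) ^ 2) =
      (2 * (m:ℝ) + 1) / ((m:ℝ) + 1) ^ 3 by field_simp]
    rw [div_le_div_iff₀ (by positivity) hm]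
    have h2 : (1:ℝ) ≤ (m:ℝ) + 1 := by linarith [Nat.cast_nonneg (α := ℝ) m]
    have h3 : (1:ℝ) ≤ ((m:ℝ) + 1) := h2
    have h4 : ((m:ℝ) + 1) ^ 2 ≤ ((m:ℝ) + 1) ^ 3 := by
      apply pow_le_pow_right₀ h2; norm_num
    nlinarith
  have hlim2 : Tendsto (fun m : ℕ =>
      ENNReal.ofReal (2 ^ (2 * m + 1) * (2 * m + 1) * ((m + 1) *
        (C * ((m:ℝ) + 1) ^ 2 * β ^ (m + 1))))) atTop (𝓝 0) := by
    rw [← ENNReal.ofReal_zero]
    apply ENNReal.tendsto_ofReal
    have h1 : Tendsto (fun n : ℕ => C * ((n:ℝ) ^ 4 * (4 * β) ^ n)) atTop (𝓝 0) := by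
      have := tendsto_pow_const_mul_const_pow_of_lt_one 4 (r := 4 * β) (by positivity) (by linarith)
      simpa using this.const_mul C
    have h2 := (tendsto_add_atTop_iff_nat 1).mpr h1
    refine squeeze_zero (fun m => by positivity) (fun m => ?_) h2
    have h3 : (2:ℝ) ^ (2 * m + 1) * (2 * m + 1) * ((m + 1) *
        (C * ((m:ℝ) + 1) ^ 2 * β ^ (m + 1))) =
        C * (((2 * (m:ℝ) + 1) / 2) * (m + 1) ^ 3 * (4 * β) ^ (m + 1)) := by
      rw [mul_pow, show (4:ℝ) = 2 ^ 2 by norm_num, ← pow_mul]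
      rw [show 2 * (m + 1) = 2 * m + 1 + 1 by ring, pow_succ (2:ℝ) (2 * m + 1)]
      ring
    rw [h3]
    push_cast
    have h4 : (2 * (m:ℝ) + 1) / 2 * (m + 1) ^ 3 ≤ ((m:ℝ) + 1) ^ 4 := by
      rw [show ((m:ℝ) + 1) ^ 4 = (m + 1) * (m + 1) ^ 3 by ring]
      gcongr
      linarith
    gcongr
  have hlim := hlim1.add hlim2
  rw [add_zero] at hlim
  exact tendsto_of_tendsto_of_tendsto_of_le_of_le tendsto_const_nhds hlim
    (fun _ => zero_le) hbound

theorem gaussLaw_upper (β : ℝ) (hβ : 1 / 4 < β) (C : ℝ) (hC : 0 < C) :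
    Tendsto (fun M : ℕ => gaussLaw M
      {A | ¬ omega (Matrix.of A) ≤ C * maxRow (Matrix.of A) * β ^ M}) atTop (𝓝 0) := by
  rw [← tendsto_add_atTop_iff_nat 1]
  exact tendsto_upper β hβ C hC

theorem gaussLaw_lower (β : ℝ) (hβ0 : 0 < β) (hβ : β < 1 / 4) (C : ℝ) (hC : 0 < C) :
    Tendsto (fun M : ℕ => gaussLaw M
      {A | omega (Matrix.of A) ≤ C * maxRow (Matrix.of A) * β ^ M}) atTop (𝓝 0) := by
  rw [← tendsto_add_atTop_iff_nat 1]
  exact tendsto_lower β hβ0 hβ C hC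

instance (M : ℕ) : IsProbabilityMeasure (gaussLaw M) := by unfold gaussLaw; infer_instance

lemma tendsto_one_of_compl {S : (M : ℕ) → Set (Fin (2 * M - 1) → Fin M → ℝ)}
    (h : Tendsto (fun M => gaussLaw M (S M)ᶜ) atTop (𝓝 0)) :
    Tendsto (fun M => gaussLaw M (S M)) atTop (𝓝 1) := by
  have h1 : Tendsto (fun M => 1 - gaussLaw M (S M)ᶜ) atTop (𝓝 1) := by
    have := ENNReal.Tendsto.sub (a := 1) (b := 0) tendsto_const_nhds h (by simp)
    simpa using this
  refine tendsto_of_tendsto_of_tendsto_of_le_of_le h1 tendsto_const_nhds (fun M => ?_)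
    (fun M => prob_le_one)
  rw [tsub_le_iff_right]
  calc (1 : ℝ≥0∞) = gaussLaw M Set.univ := measure_univ.symm
    _ ≤ gaussLaw M (S M ∪ (S M)ᶜ) := by rw [Set.union_compl_self]
    _ ≤ _ := measure_union_le _ _

theorem admissible_of_gt (β : ℝ) (hβ : 1 / 4 < β) : Admissible β := by
  refine ⟨1, one_pos, ?_⟩
  apply tendsto_one_of_compl
  exact gaussLaw_upper β hβ 1 one_pos

theorem not_admissible_of_lt (β : ℝ) (hβ0 : 0 < β) (hβ : β < 1 / 4) : ¬ Admissible β := by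
  rintro ⟨C, hC, h⟩
  have h2 := gaussLaw_lower β hβ0 hβ C hC
  have := tendsto_nhds_unique h h2
  exact one_ne_zero this

end Pool.Agent.H90.PR
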