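import Pool.Agent.H90.PR.Generic

/-!
Second moment bound for unions, counting close sets.
-/

open MeasureTheory ProbabilityTheory
open scoped ENNReal NNReal RealInnerProductSpace

namespace Pool.Agent.H90.PR

/-- Second moment bound for the measure of a finite union. -/
lemma sq_sum_le_union {Ω : Type*} [MeasurableSpace Ω] (μ : Measure Ω) [IsProbabilityMeasure μ]
    {α : Type*} (s : Finset α) (A : α → Set Ω) (hA : ∀ i ∈ s, MeasurableSet (A i)) :
    (∑ i ∈ s, μ.real (A i)) ^ 2 ≤
      μ.real (⋃ i ∈ s, A i) * ∑ i ∈ s, ∑ j ∈ s, μ.real (A i ∩ A j) := by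
  classical
  set U : Set Ω := ⋃ i ∈ s, A i with hU
  have hUm : MeasurableSet U := Finset.measurableSet_biUnion s hA
  set X : Ω → ℝ := fun ω => ∑ i ∈ s, (A i).indicator (fun _ => (1:ℝ)) ω with hX
  set V : Ω → ℝ := U.indicator (fun _ => (1:ℝ)) with hV
  have hint1 : ∀ i ∈ s, Integrable ((A i).indicator (fun _ => (1:ℝ))) μ := fun i hi =>
    (integrable_const 1).indicator (hA i hi)
  have hXV : ∀ ω, X ω * V ω = X ω := by
    intro ω
    by_cases h : ω ∈ U
    · simp [hV, h]
    · have : X ω = 0 := by
        apply Finset.sum_eq_zero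
        intro i hi
        apply Set.indicator_of_notMem
        intro hh
        exact h (Set.mem_biUnion hi hh)
      rw [this]; ring
  have hVV : ∀ ω, V ω * V ω = V ω := by
    intro ω
    by_cases h : ω ∈ U <;> simp [hV, h]
  have hXX : ∀ ω, X ω * X ω = ∑ i ∈ s, ∑ j ∈ s, (A i ∩ A j).indicator (fun _ => (1:ℝ)) ω := by
    intro ω
    rw [hX]
    simp only
    rw [Finset.sum_mul_sum]
    apply Finset.sum_congr rfl
    intro i _
    apply Finset.sum_congr rfl
    intro j _
    by_cases h1 : ω ∈ A i <;> by_cases h2 : ω ∈ A j <;> simp [h1, h2]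
  have e1 : ∫ ω, X ω ∂μ = ∑ i ∈ s, μ.real (A i) := by
    rw [hX, integral_finsetSum s hint1]
    apply Finset.sum_congr rfl
    intro i hi
    rw [integral_indicator_const _ (hA i hi)]
    simp
  have e2 : ∫ ω, V ω ∂μ = μ.real U := by
    rw [hV, integral_indicator_const _ hUm]; simp
  have hintij : ∀ i ∈ s, ∀ j ∈ s, Integrable ((A i ∩ A j).indicator (fun _ => (1:ℝ))) μ :=
    fun i hi j hj => (integrable_const 1).indicator ((hA i hi).inter (hA j hj))
  have e3 : ∫ ω, X ω * X ω ∂μ = ∑ i ∈ s, ∑ j ∈ s, μ.real (A i ∩ A j) := by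
    simp_rw [hXX]
    rw [integral_finsetSum s (fun i hi => integrable_finsetSum s (fun j hj => hintij i hi j hj))]
    apply Finset.sum_congr rfl
    intro i hi
    rw [integral_finsetSum s (fun j hj => hintij i hi j hj)]
    apply Finset.sum_congr rfl
    intro j hj
    rw [integral_indicator_const _ ((hA i hi).inter (hA j hj))]
    simp
  have hXint : Integrable X μ := integrable_finsetSum s hint1
  have hVint : Integrable V μ := (integrable_const 1).indicator hUm
  have hXXint : Integrable (fun ω => X ω * X ω) μ := by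
    simp_rw [hXX]
    exact integrable_finsetSum s (fun i hi => integrable_finsetSum s
      (fun j hj => hintij i hi j hj))
  -- discriminant
  have hdisc : ∀ l : ℝ, 0 ≤ (∑ i ∈ s, ∑ j ∈ s, μ.real (A i ∩ A j)) -
      2 * l * (∑ i ∈ s, μ.real (A i)) + l ^ 2 * μ.real U := by
    intro l
    have h0 : 0 ≤ ∫ ω, (X ω - l * V ω) ^ 2 ∂μ := integral_nonneg (fun ω => sq_nonneg _)
    have h1 : ∫ ω, (X ω - l * V ω) ^ 2 ∂μ =
        ∫ ω, (X ω * X ω - 2 * l * X ω + l ^ 2 * V ω) ∂μ := by
      congr 1
      ext ω
      have := hXV ω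
      have := hVV ω
      calc (X ω - l * V ω) ^ 2 = X ω * X ω - 2 * l * (X ω * V ω) + l ^ 2 * (V ω * V ω) := by ring
        _ = _ := by rw [hXV, hVV]
    have hs1 : Integrable (fun ω => X ω * X ω - 2 * l * X ω) μ :=
      hXXint.sub (hXint.const_mul _)
    have hs2 : Integrable (fun ω => l ^ 2 * V ω) μ := hVint.const_mul _
    have hs3 : Integrable (fun ω => 2 * l * X ω) μ := hXint.const_mul _
    rw [h1, integral_add hs1 hs2,
      integral_sub hXXint hs3, integral_const_mul, integral_const_mul,
      e1, e2, e3] at h0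
    exact h0
  set a := μ.real U
  set b := ∑ i ∈ s, μ.real (A i)
  set c := ∑ i ∈ s, ∑ j ∈ s, μ.real (A i ∩ A j)
  have ha : 0 ≤ a := measureReal_nonneg
  rcases ha.eq_or_lt with h0 | h0
  · have hb : b = 0 := by
      apply Finset.sum_eq_zero
      intro i hi
      apply le_antisymm _ measureReal_nonneg
      rw [h0]
      exact measureReal_mono (Set.subset_biUnion_of_mem (u := fun i => A i) hi)
        (measure_ne_top _ _)
    rw [hb, ← h0]; simp
  · have h1 := hdisc (b / a)
    have h2 : c - 2 * (b / a) * b + (b / a) ^ 2 * a = c - b ^ 2 / a := by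
      field_simp; ring
    rw [h2] at h1
    have h3 : b ^ 2 / a ≤ c := by linarith
    rw [div_le_iff₀ h0] at h3
    linarith

section count

variable {ι : Type*} [DecidableEq ι]

omit [DecidableEq ι] in
/-- Number of subsets of size less than `i₀`. -/
lemma card_small_subsets (P : Finset ι) (i₀ : ℕ) {x : ℝ} (hx0 : 0 < x) (hx1 : x ≤ 1) :
    ((P.powerset.filter (fun A => A.card < i₀)).card : ℝ) * x ^ i₀ ≤ (1 + x) ^ P.card := by
  have h1 : ((P.powerset.filter (fun A => A.card < i₀)).card : ℝ) * x ^ i₀ ≤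
      ∑ A ∈ P.powerset.filter (fun A => A.card < i₀), x ^ A.card := by
    rw [← nsmul_eq_mul, ← Finset.sum_const]
    apply Finset.sum_le_sum
    intro A hA
    rw [Finset.mem_filter] at hA
    exact pow_le_pow_of_le_one hx0.le hx1 hA.2.le
  have h2 : ∑ A ∈ P.powerset.filter (fun A => A.card < i₀), x ^ A.card ≤
      ∑ A ∈ P.powerset, x ^ A.card :=
    Finset.sum_le_sum_of_subset_of_nonneg (Finset.filter_subset _ _) (fun A _ _ => by positivity)
  have h3 : ∑ A ∈ P.powerset, x ^ A.card = (1 + x) ^ P.card := by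
    have := Finset.sum_pow_mul_eq_add_pow x 1 P
    simpa [add_comm] using this
  linarith

/-- Number of sets of size `m` close to a given one. -/
lemma card_close (P : Finset ι) (m i₀ : ℕ) (T : Finset ι) (hT : T ∈ P.powersetCard m) {x : ℝ}
    (hx0 : 0 < x) (hx1 : x ≤ 1) :
    (((P.powersetCard m).filter (fun T' => (T' \ T).card < i₀)).card : ℝ) * x ^ (2 * i₀) ≤
      (1 + x) ^ (2 * P.card) := by
  set Q := P.powerset.filter (fun A => A.card < i₀) with hQ
  rw [Finset.mem_powersetCard] at hT
  have h1 : ((P.powersetCard m).filter (fun T' => (T' \ T).card < i₀)).card ≤ (Q ×ˢ Q).card := by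
    apply Finset.card_le_card_of_injOn (fun T' => (T' \ T, T \ T'))
    · intro T' hT'
      simp only [Finset.coe_filter, Finset.mem_powersetCard, Set.mem_ofPred_eq] at hT'
      simp only [Finset.coe_product, Set.mem_prod, Finset.mem_coe, hQ, Finset.mem_filter,
        Finset.mem_powerset]
      have h3 : (T \ T').card = (T' \ T).card := by
        have a1 := Finset.card_sdiff_add_card_inter T T'
        have a2 := Finset.card_sdiff_add_card_inter T' T
        rw [Finset.inter_comm] at a2
        omega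
      refine ⟨⟨Finset.sdiff_subset.trans hT'.1.1, hT'.2⟩, Finset.sdiff_subset.trans hT.1, ?_⟩
      omega
    · intro T' _ T'' _ h
      simp only [Prod.mk.injEq] at h
      have h4 : ∀ S : Finset ι, S = (T \ (T \ S)) ∪ (S \ T) := by
        intro S
        ext i
        simp only [Finset.mem_union, Finset.mem_sdiff]
        tauto
      rw [h4 T', h4 T'', h.1, h.2]
  rw [Finset.card_product] at h1
  have h2 := card_small_subsets P i₀ hx0 hx1
  rw [← hQ] at h2
  have h1' : (((P.powersetCard m).filter (fun T' => (T' \ T).card < i₀)).card : ℝ) ≤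
      (Q.card : ℝ) * Q.card := by exact_mod_cast h1
  calc (((P.powersetCard m).filter (fun T' => (T' \ T).card < i₀)).card : ℝ) * x ^ (2 * i₀)
      ≤ ((Q.card : ℝ) * Q.card) * x ^ (2 * i₀) := by gcongr
    _ = ((Q.card : ℝ) * x ^ i₀) * ((Q.card : ℝ) * x ^ i₀) := by ring
    _ ≤ (1 + x) ^ P.card * (1 + x) ^ P.card := by gcongr
    _ = _ := by ring

end count

end Pool.Agent.H90.PR
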