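import Pool.Agent.H90.PR.Moment

/-!
Normals of subfamilies of Gaussian vectors and probabilities of near coincidences.
-/

open MeasureTheory ProbabilityTheory
open scoped ENNReal NNReal RealInnerProductSpace

namespace Pool.Agent.H90.PR

variable {m : ℕ} {ι : Type*} [Fintype ι] [DecidableEq ι]

/-- Unit normal of the vectors `g i`, `i ∈ T` (for `T` of size `m`). -/
noncomputable def nv (T : Finset ι) (g : ι → EE m) : EE m :=
  if h : T.card = m then nrm (fun i => g ((T.equivFinOfCardEq h).symm i)) else 0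

omit [Fintype ι] [DecidableEq ι] in
lemma measurable_nv (T : Finset ι) : Measurable (nv (m := m) T) := by
  unfold nv
  split_ifs with h
  · apply measurable_nrm.comp
    fun_prop
  · exact measurable_const

omit [Fintype ι] [DecidableEq ι] in
lemma nv_congr (T : Finset ι) (g g' : ι → EE m) (h : ∀ i ∈ T, g i = g' i) : nv T g = nv T g' := by
  unfold nv
  split_ifs with hc
  · congr 1
    funext i
    exact h _ ((T.equivFinOfCardEq hc).symm i).2
  · rfl

omit [Fintype ι] [DecidableEq ι] in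
lemma norm_nv (T : Finset ι) (hT : T.card = m) (g : ι → EE m)
    (hg : LinearIndepOn ℝ g (T : Set ι)) : ‖nv T g‖ = 1 := by
  unfold nv
  rw [dif_pos hT]
  apply norm_nrm
  have h1 : LinearIndependent ℝ (fun i : T => g i) := hg
  exact h1.comp _ (T.equivFinOfCardEq hT).symm.injective

omit [Fintype ι] [DecidableEq ι] in
lemma inner_nv (T : Finset ι) (hT : T.card = m) (g : ι → EE m) (i : ι) (hi : i ∈ T) :
    ⟪nv T g, g i⟫ = (0:ℝ) := by
  unfold nv
  rw [dif_pos hT]
  have := inner_nrm_self (fun i => g ((T.equivFinOfCardEq hT).symm i))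
    (T.equivFinOfCardEq hT ⟨i, hi⟩)
  simpa using this

/-- Extension by zero of a partial family. -/
def ext0 (P : Finset ι) (u : {i // i ∈ P} → EE m) : ι → EE m :=
  fun i => if h : i ∈ P then u ⟨i, h⟩ else 0

omit [Fintype ι] in
lemma measurable_ext0 (P : Finset ι) : Measurable (ext0 (m := m) P) := by
  unfold ext0
  apply measurable_pi_lambda
  intro i
  by_cases h : i ∈ P
  · simp only [h, dite_true]; fun_prop
  · simp only [h, dite_false]; fun_prop

omit [Fintype ι] in
lemma nv_ext0 (P T : Finset ι) (hT : T ⊆ P) (g : ι → EE m) :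
    nv T (ext0 P (res P g)) = nv T g := by
  apply nv_congr
  intro i hi
  simp [ext0, res, hT hi]

/-- A further vector is unlikely to be close to the hyperplane spanned by the vectors in `T`. -/
lemma single_bound (T : Finset ι) (k : ι) (hk : k ∉ T) (s : ℝ) :
    Measure.pi (fun _ : ι => stdGaussian (EE m)) {g | ‖nv T g‖ = 1 ∧ |⟪nv T g, g k⟫| ≤ s} ≤
      ENNReal.ofReal s := by
  set S : Set (({i // i ∈ T} → EE m) × EE m) :=
    {p | ‖nv T (ext0 T p.1)‖ = 1 ∧ |⟪nv T (ext0 T p.1), p.2⟫| ≤ s} with hS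
  have hm : Measurable (fun p : ({i // i ∈ T} → EE m) × EE m => nv T (ext0 T p.1)) :=
    (measurable_nv T).comp ((measurable_ext0 T).comp measurable_fst)
  have hSm : MeasurableSet S := by
    have : S = {p | ‖nv T (ext0 T p.1)‖ = 1} ∩ {p | |⟪nv T (ext0 T p.1), p.2⟫| ≤ s} := rfl
    rw [this]
    exact (measurableSet_eq_fun hm.norm measurable_const).inter
      (measurableSet_le (by fun_prop) measurable_const)
  have h := fubini_bound (stdGaussian (EE m)) T {k} (by simpa using hk) S hSm (ENNReal.ofReal s) (by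
    intro u
    by_cases hu : ‖nv T (ext0 T u)‖ = 1
    · refine (measure_mono ?_).trans (slab_le (nv T (ext0 T u)) hu s)
      intro y hy
      exact hy.2
    · have : Prod.mk u ⁻¹' S = ∅ := by
        ext y; simp [hS, hu]
      rw [this]; simp)
  rw [Finset.card_singleton, pow_one] at h
  refine (measure_mono ?_).trans h
  intro g hg
  simp only [Set.mem_ofPred_eq, Finset.mem_singleton, forall_eq, hS, nv_ext0 T T le_rfl]
  exact hg

/-- Probability that a Gaussian vector is relatively close to a hyperplane. -/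
lemma cone_le (x : EE m) (hx : ‖x‖ = 1) (s K : ℝ) (hs : 0 ≤ s) (hK : 0 < K) :
    stdGaussian (EE m) {y | |⟪x, y⟫| ≤ s * ‖y‖} ≤
      ENNReal.ofReal (s * K + ((m:ℝ) + 1) / K ^ 2) := by
  have hsub : {y : EE m | |⟪x, y⟫| ≤ s * ‖y‖} ⊆ {y | |⟪x, y⟫| ≤ s * K} ∪ {y | K ≤ ‖y‖} := by
    intro y hy
    simp only [Set.mem_ofPred_eq, Set.mem_union] at hy ⊢
    rcases le_or_gt K ‖y‖ with h | h
    · right; exact h
    · left
      exact hy.trans (mul_le_mul_of_nonneg_left h.le hs)
  refine (measure_mono hsub).trans ((measure_union_le _ _).trans ?_)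
  rw [ENNReal.ofReal_add (by positivity) (by positivity)]
  gcongr
  · exact slab_le x hx _
  · refine (norm_tail K hK).trans (le_of_eq ?_)
    simp

lemma multi_bound (T J : Finset ι) (hTJ : Disjoint T J) (s K : ℝ) (hs : 0 ≤ s) (hK : 0 < K) :
    Measure.pi (fun _ : ι => stdGaussian (EE m))
      {g | ‖nv T g‖ = 1 ∧ ∀ j ∈ J, |⟪nv T g, g j⟫| ≤ s * ‖g j‖} ≤
      ENNReal.ofReal (s * K + ((m:ℝ) + 1) / K ^ 2) ^ J.card := by
  set S : Set (({i // i ∈ T} → EE m) × EE m) :=
    {p | ‖nv T (ext0 T p.1)‖ = 1 ∧ |⟪nv T (ext0 T p.1), p.2⟫| ≤ s * ‖p.2‖} with hS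
  have hm : Measurable (fun p : ({i // i ∈ T} → EE m) × EE m => nv T (ext0 T p.1)) :=
    (measurable_nv T).comp ((measurable_ext0 T).comp measurable_fst)
  have hSm : MeasurableSet S := by
    have : S = {p | ‖nv T (ext0 T p.1)‖ = 1} ∩
      {p | |⟪nv T (ext0 T p.1), p.2⟫| ≤ s * ‖p.2‖} := rfl
    rw [this]
    exact (measurableSet_eq_fun hm.norm measurable_const).inter
      (measurableSet_le (by fun_prop) (by fun_prop))
  have h := fubini_bound (stdGaussian (EE m)) T J hTJ S hSm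
    (ENNReal.ofReal (s * K + ((m:ℝ) + 1) / K ^ 2)) (by
    intro u
    by_cases hu : ‖nv T (ext0 T u)‖ = 1
    · refine (measure_mono ?_).trans (cone_le (nv T (ext0 T u)) hu s K hs hK)
      intro y hy
      exact hy.2
    · have : Prod.mk u ⁻¹' S = ∅ := by
        ext y; simp [hS, hu]
      rw [this]; simp)
  refine (measure_mono ?_).trans h
  intro g hg
  simp only [Set.mem_ofPred_eq, hS, nv_ext0 T T le_rfl]
  exact fun j hj => ⟨hg.1, hg.2 j hj⟩

omit [Fintype ι] in
/-- Deterministic: if the two normals are close, the vectors of `T' \ T` are close to the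
hyperplane of `T`. -/
lemma close_normals (T T' : Finset ι) (hT' : T'.card = m) (g : ι → EE m)
    (h1 : ‖nv T g‖ = 1) (h2 : ‖nv T' g‖ = 1) (s : ℝ) (hs : 0 ≤ s)
    (h3 : 1 - ⟪nv T g, nv T' g⟫ ^ 2 ≤ s ^ 2) (j : ι) (hj : j ∈ T' \ T) :
    |⟪nv T g, g j⟫| ≤ s * ‖g j‖ := by
  set x := nv T g
  set x' := nv T' g
  set ρ : ℝ := ⟪x, x'⟫ with hρ
  have h0 : ⟪x', g j⟫ = (0:ℝ) := inner_nv T' hT' g j (Finset.mem_sdiff.mp hj).1
  have h4 : ⟪x, g j⟫ = ⟪x - ρ • x', g j⟫ := by
    rw [inner_sub_left, inner_smul_left, h0]; simp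
  have h5 : ‖x - ρ • x'‖ ^ 2 = 1 - ρ ^ 2 := by
    have h7 : ⟪x', x⟫ = ρ := by rw [hρ, real_inner_comm]
    rw [← real_inner_self_eq_norm_sq, inner_sub_left, inner_sub_right, inner_sub_right,
      inner_smul_left, inner_smul_left, inner_smul_right, inner_smul_right,
      real_inner_self_eq_norm_sq, real_inner_self_eq_norm_sq, h1, h2, h7, ← hρ]
    simp only [conj_trivial]
    ring
  have h6 : ‖x - ρ • x'‖ ≤ s := by
    apply abs_le_of_sq_le_sq' _ hs |>.2
    rw [h5]; exact h3
  rw [h4]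
  calc |⟪x - ρ • x', g j⟫| ≤ ‖x - ρ • x'‖ * ‖g j‖ := abs_real_inner_le_norm _ _
    _ ≤ s * ‖g j‖ := by gcongr

/-- The family `g` restricted to `P` is in good position. -/
def Good (P : Finset ι) (i₀ : ℕ) (s : ℝ) (g : ι → EE m) : Prop :=
  (∀ T ∈ P.powersetCard m, ‖nv T g‖ = 1) ∧
  ∀ T ∈ P.powersetCard m, ∀ T' ∈ P.powersetCard m, i₀ ≤ (T' \ T).card →
    s ^ 2 ≤ 1 - ⟪nv T g, nv T' g⟫ ^ 2

omit [Fintype ι] in
lemma good_ext0 (P : Finset ι) (i₀ : ℕ) (s : ℝ) (g : ι → EE m) :
    Good P i₀ s (ext0 P (res P g)) ↔ Good P i₀ s g := by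
  have h : ∀ T ∈ P.powersetCard m, nv T (ext0 P (res P g)) = nv T g := fun T hT =>
    nv_ext0 P T (Finset.mem_powersetCard.mp hT).1 g
  unfold Good
  constructor
  · rintro ⟨h1, h2⟩
    refine ⟨fun T hT => by rw [← h T hT]; exact h1 T hT, fun T hT T' hT' hi => ?_⟩
    rw [← h T hT, ← h T' hT']; exact h2 T hT T' hT' hi
  · rintro ⟨h1, h2⟩
    refine ⟨fun T hT => by rw [h T hT]; exact h1 T hT, fun T hT T' hT' hi => ?_⟩
    rw [h T hT, h T' hT']; exact h2 T hT T' hT' hi

omit [Fintype ι] in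
lemma measurableSet_good (P : Finset ι) (i₀ : ℕ) (s : ℝ) :
    MeasurableSet {g : ι → EE m | Good P i₀ s g} := by
  have h1 : {g : ι → EE m | Good P i₀ s g} =
      (⋂ T ∈ P.powersetCard m, {g | ‖nv T g‖ = 1}) ∩
      ⋂ T ∈ P.powersetCard m, ⋂ T' ∈ P.powersetCard m,
        {g | i₀ ≤ (T' \ T).card → s ^ 2 ≤ 1 - ⟪nv T g, nv T' g⟫ ^ 2} := by
    ext g
    simp only [Good, Set.mem_inter_iff, Set.mem_iInter, Set.mem_ofPred_eq]
  rw [h1]
  apply MeasurableSet.inter
  · apply Finset.measurableSet_biInter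
    intro T _
    exact measurableSet_eq_fun (measurable_nv T).norm measurable_const
  · apply Finset.measurableSet_biInter
    intro T _
    apply Finset.measurableSet_biInter
    intro T' _
    by_cases hi : i₀ ≤ (T' \ T).card
    · simp only [hi, true_imp_iff]
      have a1 := measurable_nv (m := m) T
      have a2 := measurable_nv (m := m) T'
      apply measurableSet_le <;> fun_prop
    · simp [hi]

/-- Bad position is unlikely. -/
lemma not_good_le (P : Finset ι) (i₀ : ℕ) (s K η : ℝ) (hs : 0 ≤ s) (hK : 0 < K)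
    (hη : s * K + ((m:ℝ) + 1) / K ^ 2 ≤ η) (hη1 : η ≤ 1) :
    Measure.pi (fun _ : ι => stdGaussian (EE m)) {g | ¬ Good P i₀ s g} ≤
      ENNReal.ofReal (((P.powersetCard m).card : ℝ) ^ 2 * η ^ i₀) := by
  have hη0 : 0 ≤ η := le_trans (by positivity) hη
  set μ := Measure.pi (fun _ : ι => stdGaussian (EE m)) with hμ
  have hae : ∀ᵐ g ∂μ, ∀ T ∈ P.powersetCard m, ‖nv T g‖ = 1 := by
    rw [Filter.eventually_all_finset]
    intro T hT
    have hTc := (Finset.mem_powersetCard.mp hT).2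
    have h1 := ae_linearIndepOn (E := EE m) T (by simp [hTc])
    filter_upwards [h1] with g hg
    exact norm_nv T hTc g hg
  set Bad : Finset ι → Finset ι → Set (ι → EE m) := fun T T' =>
    {g | i₀ ≤ (T' \ T).card ∧ ‖nv T g‖ = 1 ∧ ∀ j ∈ T' \ T, |⟪nv T g, g j⟫| ≤ s * ‖g j‖} with hBad
  have hsub : {g : ι → EE m | ¬ Good P i₀ s g} ⊆ {g | ¬ ∀ T ∈ P.powersetCard m, ‖nv T g‖ = 1} ∪
      ⋃ T ∈ P.powersetCard m, ⋃ T' ∈ P.powersetCard m, Bad T T' := by
    intro g hg
    by_cases h1 : ∀ T ∈ P.powersetCard m, ‖nv T g‖ = 1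
    · right
      simp only [Set.mem_ofPred_eq, Good, not_and, not_forall] at hg
      obtain ⟨T, hT, T', hT', hi, h2⟩ := hg h1
      simp only [Set.mem_iUnion]
      refine ⟨T, hT, T', hT', hi, h1 T hT, ?_⟩
      intro j hj
      exact close_normals T T' (Finset.mem_powersetCard.mp hT').2 g (h1 T hT) (h1 T' hT') s hs
        (not_le.mp h2).le j hj
    · left; exact h1
  have hbad : ∀ T T', μ (Bad T T') ≤ ENNReal.ofReal (η ^ i₀) := by
    intro T T'
    by_cases hi : i₀ ≤ (T' \ T).card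
    · have h1 : Bad T T' ⊆ {g | ‖nv T g‖ = 1 ∧ ∀ j ∈ T' \ T, |⟪nv T g, g j⟫| ≤ s * ‖g j‖} :=
        fun g hg => hg.2
      refine (measure_mono h1).trans ((multi_bound T (T' \ T) Finset.disjoint_sdiff s K hs hK).trans ?_)
      rw [← ENNReal.ofReal_pow (by positivity)]
      apply ENNReal.ofReal_le_ofReal
      calc (s * K + ((m:ℝ) + 1) / K ^ 2) ^ (T' \ T).card ≤ η ^ (T' \ T).card := by gcongr
        _ ≤ η ^ i₀ := pow_le_pow_of_le_one hη0 hη1 hi
    · have h1 : Bad T T' = ∅ := by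
        ext g; simp [hBad, hi]
      rw [h1]; simp
  calc μ {g | ¬ Good P i₀ s g} ≤ μ {g | ¬ ∀ T ∈ P.powersetCard m, ‖nv T g‖ = 1} +
        μ (⋃ T ∈ P.powersetCard m, ⋃ T' ∈ P.powersetCard m, Bad T T') :=
        (measure_mono hsub).trans (measure_union_le _ _)
    _ = μ (⋃ T ∈ P.powersetCard m, ⋃ T' ∈ P.powersetCard m, Bad T T') := by
        rw [show μ {g | ¬ ∀ T ∈ P.powersetCard m, ‖nv T g‖ = 1} = 0 from ae_iff.mp hae, zero_add]
    _ ≤ ∑ T ∈ P.powersetCard m, ∑ T' ∈ P.powersetCard m, μ (Bad T T') := by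
        refine (measure_biUnion_finset_le _ _).trans ?_
        gcongr with T hT
        exact measure_biUnion_finset_le _ _
    _ ≤ ∑ T ∈ P.powersetCard m, ∑ T' ∈ P.powersetCard m, ENNReal.ofReal (η ^ i₀) := by
        gcongr with T hT T' hT'
        exact hbad T T'
    _ = _ := by
        rw [Finset.sum_const, Finset.sum_const, smul_smul, nsmul_eq_mul,
          ENNReal.ofReal_mul (by positivity)]
        congr 1
        rw [sq, ← Nat.cast_mul, ENNReal.ofReal_natCast]

/-- Conditional failure probability of one further vector, for a family in good position. -/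
lemma cond_fail (P : Finset ι) (i₀ : ℕ) (s t D : ℝ) (g : ι → EE m) (hg : Good P i₀ s g)
    (hs : 0 < s) (ht : 0 < t) (ht1 : t ≤ 1)
    (hD : ∀ T ∈ P.powersetCard m,
      (((P.powersetCard m).filter (fun T' => (T' \ T).card < i₀)).card : ℝ) ≤ D)
    (hDN : D * s ≤ ((P.powersetCard m).card : ℝ) * t) (hN : 0 < (P.powersetCard m).card) :
    stdGaussian (EE m) {a | ∀ T ∈ P.powersetCard m, t < |⟪nv T g, a⟫|} ≤
      ENNReal.ofReal (1 - s / 32) := by
  set 𝒯 := P.powersetCard m with h𝒯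
  set γ := stdGaussian (EE m) with hγ
  set A : Finset ι → Set (EE m) := fun T => {a | |⟪nv T g, a⟫| ≤ t} with hA
  have hAm : ∀ T ∈ 𝒯, MeasurableSet (A T) := fun T _ => measurableSet_abs_inner_le _ _
  have hsec := sq_sum_le_union γ 𝒯 A hAm
  set N : ℝ := (𝒯.card : ℝ) with hNdef
  have hN0 : 0 < N := by rw [hNdef]; exact_mod_cast hN
  -- lower bound for the first moment
  have h1 : N * (t / 4) ≤ ∑ T ∈ 𝒯, γ.real (A T) := by
    calc N * (t / 4) = ∑ _T ∈ 𝒯, t / 4 := by rw [Finset.sum_const, nsmul_eq_mul]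
      _ ≤ ∑ T ∈ 𝒯, γ.real (A T) := by
          apply Finset.sum_le_sum
          intro T hT
          have := le_slab (nv T g) (hg.1 T hT) t ht.le ht1
          rw [← ENNReal.ofReal_toReal (measure_ne_top γ _)] at this
          exact (ENNReal.ofReal_le_ofReal_iff measureReal_nonneg).mp this
  -- upper bound for the second moment
  have h2 : ∑ T ∈ 𝒯, ∑ T' ∈ 𝒯, γ.real (A T ∩ A T') ≤ N * (D * t + N * (t ^ 2 / s)) := by
    calc ∑ T ∈ 𝒯, ∑ T' ∈ 𝒯, γ.real (A T ∩ A T') ≤ ∑ _T ∈ 𝒯, (D * t + N * (t ^ 2 / s)) := by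
          apply Finset.sum_le_sum
          intro T hT
          calc ∑ T' ∈ 𝒯, γ.real (A T ∩ A T')
              ≤ ∑ T' ∈ 𝒯, ((if (T' \ T).card < i₀ then t else 0) + t ^ 2 / s) := by
                apply Finset.sum_le_sum
                intro T' hT'
                split_ifs with hi
                · have h3 : γ.real (A T ∩ A T') ≤ t := by
                    have h4 : γ (A T ∩ A T') ≤ ENNReal.ofReal t :=
                      (measure_mono Set.inter_subset_left).trans (slab_le (nv T g) (hg.1 T hT) t)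
                    exact ENNReal.toReal_le_of_le_ofReal ht.le h4
                  have : 0 ≤ t ^ 2 / s := by positivity
                  linarith
                · have h4 : γ (A T ∩ A T') ≤ ENNReal.ofReal (t ^ 2 / s) :=
                    two_slabs_le (nv T g) (nv T' g) (hg.1 T hT) (hg.1 T' hT') t s ht.le hs
                      (hg.2 T hT T' hT' (not_lt.mp hi))
                  have h5 : γ.real (A T ∩ A T') ≤ t ^ 2 / s :=
                    ENNReal.toReal_le_of_le_ofReal (by positivity) h4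
                  linarith
            _ = ((𝒯.filter (fun T' => (T' \ T).card < i₀)).card : ℝ) * t + N * (t ^ 2 / s) := by
                rw [Finset.sum_add_distrib, ← Finset.sum_filter, Finset.sum_const, Finset.sum_const,
                  nsmul_eq_mul, nsmul_eq_mul]
            _ ≤ D * t + N * (t ^ 2 / s) := by
                have := hD T hT
                gcongr
      _ = _ := by rw [Finset.sum_const, nsmul_eq_mul]
  set U : Set (EE m) := ⋃ T ∈ 𝒯, A T with hU
  have hUm : MeasurableSet U := Finset.measurableSet_biUnion 𝒯 hAm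
  have hU0 : 0 ≤ γ.real U := measureReal_nonneg
  -- conclude the lower bound for the union
  have h3 : s / 32 ≤ γ.real U := by
    have h4 : (N * (t / 4)) ^ 2 ≤ γ.real U * (N * (D * t + N * (t ^ 2 / s))) := by
      calc (N * (t / 4)) ^ 2 ≤ (∑ T ∈ 𝒯, γ.real (A T)) ^ 2 := by gcongr
        _ ≤ γ.real U * ∑ T ∈ 𝒯, ∑ T' ∈ 𝒯, γ.real (A T ∩ A T') := hsec
        _ ≤ _ := by gcongr
    have h5 : N * (D * t + N * (t ^ 2 / s)) ≤ N * (2 * (N * (t ^ 2 / s))) := by
      have h6 : D * t ≤ N * (t ^ 2 / s) := by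
        have h7 : D * t * s ≤ N * t ^ 2 := by nlinarith
        rw [← mul_div_assoc, le_div_iff₀ hs]
        exact h7
      gcongr
      linarith
    have h6 : (N * (t / 4)) ^ 2 ≤ γ.real U * (N * (2 * (N * (t ^ 2 / s)))) :=
      h4.trans (by gcongr)
    have h7 : (N * t) ^ 2 * (s / 32) ≤ (N * t) ^ 2 * γ.real U := by
      have e1 : γ.real U * (N * (2 * (N * (t ^ 2 / s)))) = (N * t) ^ 2 * γ.real U * 2 / s := by
        field_simp
      rw [e1, le_div_iff₀ hs] at h6
      nlinarith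
    exact le_of_mul_le_mul_left h7 (by positivity)
  have h8 : {a : EE m | ∀ T ∈ 𝒯, t < |⟪nv T g, a⟫|} = Uᶜ := by
    ext a
    simp only [hU, hA, Set.mem_ofPred_eq, Set.mem_compl_iff, Set.mem_iUnion, not_exists, not_le]
  rw [h8, prob_compl_eq_one_sub hUm, ENNReal.ofReal_sub _ (by positivity)]
  rw [ENNReal.ofReal_one]
  apply tsub_le_tsub_left
  rw [← ENNReal.ofReal_toReal (measure_ne_top γ U)]
  exact ENNReal.ofReal_le_ofReal h3

/-- Main probability estimate: all further vectors miss all the hyperplanes. -/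
lemma all_fail (P Q : Finset ι) (hPQ : Disjoint P Q) (i₀ : ℕ) (s K η t D : ℝ) (hs : 0 < s)
    (hK : 0 < K) (hη : s * K + ((m:ℝ) + 1) / K ^ 2 ≤ η) (hη1 : η ≤ 1)
    (ht : 0 < t) (ht1 : t ≤ 1)
    (hD : ∀ T ∈ P.powersetCard m,
      (((P.powersetCard m).filter (fun T' => (T' \ T).card < i₀)).card : ℝ) ≤ D)
    (hDN : D * s ≤ ((P.powersetCard m).card : ℝ) * t) (hN : 0 < (P.powersetCard m).card) :
    Measure.pi (fun _ : ι => stdGaussian (EE m))
      {g | ∀ T ∈ P.powersetCard m, ∀ j ∈ Q, t < |⟪nv T g, g j⟫|} ≤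
      ENNReal.ofReal (((P.powersetCard m).card : ℝ) ^ 2 * η ^ i₀) +
        ENNReal.ofReal (1 - s / 32) ^ Q.card := by
  set μ := Measure.pi (fun _ : ι => stdGaussian (EE m)) with hμ
  set S : Set (({i // i ∈ P} → EE m) × EE m) :=
    {p | Good P i₀ s (ext0 P p.1) ∧ ∀ T ∈ P.powersetCard m, t < |⟪nv T (ext0 P p.1), p.2⟫|} with hS
  have hSm : MeasurableSet S := by
    have h1 : S = (fun p : ({i // i ∈ P} → EE m) × EE m => ext0 P p.1) ⁻¹' {g | Good P i₀ s g} ∩
        ⋂ T ∈ P.powersetCard m, {p | t < |⟪nv T (ext0 P p.1), p.2⟫|} := by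
      ext p
      simp only [hS, Set.mem_inter_iff, Set.mem_iInter, Set.mem_ofPred_eq, Set.mem_preimage]
    rw [h1]
    apply MeasurableSet.inter
    · exact ((measurable_ext0 P).comp measurable_fst) (measurableSet_good P i₀ s)
    · apply Finset.measurableSet_biInter
      intro T _
      have hm : Measurable (fun p : ({i // i ∈ P} → EE m) × EE m => nv T (ext0 P p.1)) :=
        (measurable_nv T).comp ((measurable_ext0 P).comp measurable_fst)
      apply measurableSet_lt <;> fun_prop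
  have hfub := fubini_bound (stdGaussian (EE m)) P Q hPQ S hSm (ENNReal.ofReal (1 - s / 32)) (by
    intro u
    by_cases hu : Good P i₀ s (ext0 P u)
    · refine (measure_mono ?_).trans
        (cond_fail P i₀ s t D (ext0 P u) hu hs ht ht1 hD hDN hN)
      intro y hy
      exact hy.2
    · have : Prod.mk u ⁻¹' S = ∅ := by
        ext y; simp [hS, hu]
      rw [this]; simp)
  have hsub : {g : ι → EE m | ∀ T ∈ P.powersetCard m, ∀ j ∈ Q, t < |⟪nv T g, g j⟫|} ⊆
      {g | ¬ Good P i₀ s g} ∪ {g | ∀ j ∈ Q, (res P g, g j) ∈ S} := by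
    intro g hg
    by_cases h1 : Good P i₀ s g
    · right
      intro j hj
      refine ⟨(good_ext0 P i₀ s g).mpr h1, fun T hT => ?_⟩
      simp only
      rw [nv_ext0 P T (Finset.mem_powersetCard.mp hT).1]
      exact hg T hT j hj
    · left; exact h1
  refine (measure_mono hsub).trans ((measure_union_le _ _).trans ?_)
  gcongr
  exact not_good_le P i₀ s K η hs.le hK hη hη1

end Pool.Agent.H90.PR
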